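import Pool.Agent.Helper693.Tri.Model

set_option autoImplicit false

noncomputable section
namespace Pool.Agent.TridiagGap

/-- entries `(A j j, A j (j+1), A (j+1) j)` -/
abbrev Ent := ℂ × ℂ × ℂ

/-- state of the three term recurrence -/
abbrev PS := List ℂ × List ℂ × ℂ

/-- `|x|^2` computed with the allowed operations -/
def nsq (x : ℂ) : ℂ := x * (((x.re : ℂ) + (x.re : ℂ)) - x)

def axBody (c : ℂ) (s : List ℂ × List ℂ × List ℂ) : List ℂ × List ℂ × List ℂ :=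
  caseList s.1 s fun b v => caseList s.2.1 s fun a u => (v, u, (a + c * b) :: s.2.2)

def revBody {β : Type} (s : List β × List β) : List β × List β :=
  caseList s.1 s fun x w => (w, x :: s.2)

/-- `u + c v` (aligned at the head) -/
def axLoop (n : ℕ) (c : ℂ) (v u : List ℂ) : List ℂ :=
  (revBody^[n] ((((axBody c)^[n] (v, u, [])).2.2, ((axBody c)^[n] (v, u, [])).2.1))).2

/-- one step of the three term recurrence -/
def cpStep (n : ℕ) (P : PS) (e : Ent) : PS :=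
  (axLoop n (-P.2.2) P.2.1 (axLoop n (-e.1) P.1 (0 :: P.1)), P.1, e.2.1 * e.2.2)

def cpBody (n : ℕ) (s : List Ent × PS) : List Ent × PS :=
  caseList s.1 s fun e t => (t, cpStep n s.2 e)

/-- coefficients of the characteristic polynomial of the block described by `l` -/
def cpAll (n : ℕ) (l : List Ent) : List ℂ :=
  ((cpBody n)^[n] (l, ([1], [], 0))).2.1

def euSwap (s : List ℂ × List ℂ × ℂ × ℂ × ℂ) : List ℂ × List ℂ × ℂ × ℂ × ℂ :=
  if 0 ≤ (s.2.2.1 - s.2.2.2.1).re then s else (s.2.1, s.1, s.2.2.2.1, s.2.2.1, s.2.2.2.2)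

def euRed (n : ℕ) (s : List ℂ × List ℂ × ℂ × ℂ × ℂ) : List ℂ × List ℂ × ℂ × ℂ × ℂ :=
  caseList s.1 s fun a fs => caseList s.2.1 s fun b gs =>
    if 0 ≤ (-(nsq b)).re then (s.1, gs, s.2.2.1, s.2.2.2.1 - 1, s.2.2.2.2 * a)
    else (axLoop n (-(a / b)) gs fs, s.2.1, s.2.2.1 - 1, s.2.2.2.1, s.2.2.2.2 * b)

def euBody (n : ℕ) (s : List ℂ × List ℂ × ℂ × ℂ × ℂ) : List ℂ × List ℂ × ℂ × ℂ × ℂ :=
  euRed n (euSwap s)

/-- Euclidean algorithm: the resultant up to sign -/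
def eu (n : ℕ) (f g : List ℂ) (df dg : ℂ) : ℂ :=
  ((euBody n)^[n] (f, g, df, dg, 1)).2.2.2.2

def spBody (n : ℕ) (nC : ℂ) (s : List Ent × PS × ℂ × ℂ) : List Ent × PS × ℂ × ℂ :=
  caseList s.1 s fun e t =>
    caseList t (t, cpStep n s.2.1 e, s.2.2.1 + 1, s.2.2.2) fun _ _ =>
      (t, cpStep n s.2.1 e, s.2.2.1 + 1, s.2.2.2 *
        nsq (eu n (cpStep n s.2.1 e).1 (cpAll n t) (s.2.2.1 + 1) (nC - (s.2.2.1 + 1))))

/-- product over all cuts of the squared moduli of the resultants -/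
def bigF (n : ℕ) (nC : ℂ) (l : List Ent) : ℂ :=
  ((spBody n nC)^[n] (l, ([1], [], 0), 0, 1)).2.2.2

def shBody (z : ℂ) (s : List Ent × ℂ × List Ent) : List Ent × ℂ × List Ent :=
  caseList s.1 s fun e t => (t, s.2.1 + 1, (e.1 + z * (s.2.1 + 1), e.2) :: s.2.2)

/-- add `z * (j + 1)` to the `j`-th diagonal entry -/
def shift (n : ℕ) (z : ℂ) (l : List Ent) : List Ent :=
  (revBody^[n] (((shBody z)^[n] (l, 0, [])).2.2, [])).2

def fz (n : ℕ) (nC : ℂ) (l : List Ent) (z : ℂ) : ℂ := bigF n nC (shift n z l)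

/-- comparison of the two candidates `x - v` and `x + v` -/
def cmp (n : ℕ) (nC : ℂ) (l : List Ent) (x v : ℂ) : ℂ :=
  fz n nC l (x - v + Complex.I * v) * fz n nC l (x + v + Complex.I * (v + v))
    - fz n nC l (x + v + Complex.I * v) * fz n nC l (x - v + Complex.I * (v + v))

def roundBody (n : ℕ) (e : ℂ × List Ent) (s : ℂ × ℂ) : ℂ × ℂ :=
  if 0 ≤ (cmp n e.1 e.2 s.1 (s.2 / (1 + 1))).re
  then (s.1 - s.2 / (1 + 1), s.2 / (1 + 1))
  else (s.1 + s.2 / (1 + 1), s.2 / (1 + 1))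

/-- the complex number `n` -/
def natC (n : ℕ) : ℂ := (fun x : ℂ => x + 1)^[n] 0

def clogBody (nC : ℂ) (s : ℂ × ℕ) : ℂ × ℕ :=
  if 0 ≤ (s.1 - nC).re then s
  else (s.1 + s.1, s.2 + 1 + 1 + 1 + 1 + 1 + 1 + 1 + 1 + 1 + 1)

/-- number of rounds, `10 * ⌈log₂ n⌉` -/
def rounds (n : ℕ) : ℕ := ((clogBody (natC n))^[n] (1, 0)).2

def outBody (c : ℂ) (s : ℂ × List ℂ) : ℂ × List ℂ := (s.1 - 1, (c * s.1) :: s.2)

def search (n : ℕ) (δ : ℂ) (l : List Ent) : ℂ × ℂ :=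
  (roundBody n (natC n, l))^[rounds n] (δ / natC n / (1 + 1), δ / natC n / (1 + 1))

/-- the algorithm -/
def algo (p : ℕ × (ℂ × List Ent)) : List ℂ :=
  ((outBody ((search p.1 p.2.1 p.2.2).1 / p.2.1))^[p.1] (natC p.1, [])).2

end Pool.Agent.TridiagGap
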