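import Pool.Agent.Helper693.Tri.Model

set_option autoImplicit false

namespace Pool.Agent.TridiagGap

/-- `PC j f`: the function `f` of `(n, x)` is computed with `O((n+1)^j)` operations. -/
def PC (j : ℕ) {α β : Type} (f : ℕ × α → β) : Prop :=
  ∃ K : ℕ, Computes f (fun p => K * (p.1 + 1) ^ j)

namespace PC

variable {α β γ ε : Type} {j : ℕ}

theorem of_const {f : ℕ × α → β} {K : ℕ} (h : Computes f (fun _ => K)) : PC j f :=
  ⟨K, h.le fun p => Nat.le_mul_of_pos_right _ (by positivity)⟩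

theorem mono {j' : ℕ} {f : ℕ × α → β} (h : PC j f) (hj : j ≤ j') : PC j' f := by
  obtain ⟨K, hK⟩ := h
  exact ⟨K, hK.le fun p => Nat.mul_le_mul_left _ (Nat.pow_le_pow_right (by omega) hj)⟩

theorem congr {f g : ℕ × α → β} (h : PC j f) (hfg : ∀ p, f p = g p) : PC j g := by
  have : f = g := funext hfg
  rwa [← this]

theorem n : PC j (fun p : ℕ × α => p.1) := of_const Computes.fst

theorem arg : PC j (fun p : ℕ × α => p.2) := of_const Computes.snd

theorem comp {f : ℕ × α → β} {g : ℕ × β → γ} (hf : PC j f) (hg : PC j g) :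
    PC j (fun p => g (p.1, f p)) := by
  obtain ⟨K, hK⟩ := hf
  obtain ⟨L, hL⟩ := hg
  refine ⟨1 + K + 1 + L, ((Computes.pair Computes.fst hK).comp hL).le fun p => ?_⟩
  have h1 : 1 ≤ (p.1 + 1) ^ j := Nat.one_le_pow _ _ (by omega)
  simp only
  nlinarith

/-- composition with a function of constant cost -/
theorem map {f : ℕ × α → β} {g : β → γ} {K : ℕ} (hf : PC j f) (hg : Computes g (fun _ => K)) :
    PC j (fun p => g (f p)) := by
  obtain ⟨L, hL⟩ := hf
  refine ⟨L + K, (hL.comp hg).le fun p => ?_⟩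
  have h1 : 1 ≤ (p.1 + 1) ^ j := Nat.one_le_pow _ _ (by omega)
  nlinarith

theorem pair {f : ℕ × α → β} {g : ℕ × α → γ} (hf : PC j f) (hg : PC j g) :
    PC j (fun p => (f p, g p)) := by
  obtain ⟨K, hK⟩ := hf
  obtain ⟨L, hL⟩ := hg
  refine ⟨K + L + 1, (hK.pair hL).le fun p => ?_⟩
  have h1 : 1 ≤ (p.1 + 1) ^ j := Nat.one_le_pow _ _ (by omega)
  nlinarith

theorem fst {f : ℕ × α → β × γ} (hf : PC j f) : PC j (fun p => (f p).1) :=
  hf.map Computes.fst

theorem snd {f : ℕ × α → β × γ} (hf : PC j f) : PC j (fun p => (f p).2) :=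
  hf.map Computes.snd

theorem one : PC j (fun _ : ℕ × α => (1 : ℂ)) := of_const Computes.one

theorem imag : PC j (fun _ : ℕ × α => Complex.I) := of_const Computes.imag

theorem nil : PC j (fun _ : ℕ × α => ([] : List β)) := of_const Computes.nil

theorem natZero : PC j (fun _ : ℕ × α => (0 : ℕ)) := of_const Computes.zero

theorem natSucc {f : ℕ × α → ℕ} (hf : PC j f) : PC j (fun p => f p + 1) :=
  hf.map Computes.succ

theorem add {f g : ℕ × α → ℂ} (hf : PC j f) (hg : PC j g) : PC j (fun p => f p + g p) :=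
  (hf.pair hg).map Computes.add

theorem sub {f g : ℕ × α → ℂ} (hf : PC j f) (hg : PC j g) : PC j (fun p => f p - g p) :=
  (hf.pair hg).map Computes.sub

theorem mul {f g : ℕ × α → ℂ} (hf : PC j f) (hg : PC j g) : PC j (fun p => f p * g p) :=
  (hf.pair hg).map Computes.mul

theorem div {f g : ℕ × α → ℂ} (hf : PC j f) (hg : PC j g) : PC j (fun p => f p / g p) :=
  (hf.pair hg).map Computes.div

theorem re {f : ℕ × α → ℂ} (hf : PC j f) : PC j (fun p => ((f p).re : ℂ)) :=
  hf.map Computes.re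

theorem zero : PC j (fun _ : ℕ × α => (0 : ℂ)) :=
  (sub (α := α) one one).congr fun _ => by simp

theorem neg {f : ℕ × α → ℂ} (hf : PC j f) : PC j (fun p => - f p) :=
  (zero.sub hf).congr fun _ => by simp

theorem cons {f : ℕ × α → β} {g : ℕ × α → List β} (hf : PC j f) (hg : PC j g) :
    PC j (fun p => f p :: g p) :=
  (hf.pair hg).map Computes.cons

theorem branch {h : ℕ × α → ℂ} {f g : ℕ × α → β} (hh : PC j h) (hf : PC j f) (hg : PC j g) :
    PC j (fun p => if 0 ≤ (h p).re then f p else g p) := by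
  obtain ⟨K, hK⟩ := hh
  obtain ⟨L, hL⟩ := hf
  obtain ⟨N, hN⟩ := hg
  refine ⟨K + L + N + 1, (Computes.branch hK hL hN).le fun p => ?_⟩
  have h1 : 1 ≤ (p.1 + 1) ^ j := Nat.one_le_pow _ _ (by omega)
  split_ifs <;> nlinarith [Nat.zero_le (L * (p.1 + 1) ^ j), Nat.zero_le (N * (p.1 + 1) ^ j)]

theorem caseL {f : ℕ × α → List β} {g : ℕ × α → γ} {h : ℕ × (α × β × List β) → γ}
    (hf : PC j f) (hg : PC j g) (hh : PC j h) :
    PC j (fun p => caseList (f p) (g p) (fun b t => h (p.1, (p.2, b, t)))) := by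
  obtain ⟨K, hK⟩ := hf
  obtain ⟨L, hL⟩ := hg
  obtain ⟨N, hN⟩ := hh
  -- `h` as a function of `((n, x), b, t)`
  have h1 : Computes (fun q : (ℕ × α) × β × List β => h (q.1.1, (q.1.2, q.2)))
      (fun q => 1 + 1 + (1 + 1 + 1 + 1) + 1 + N * (q.1.1 + 1) ^ j) := by
    refine ((Computes.pair (Computes.comp Computes.fst Computes.fst)
      (Computes.pair (Computes.comp Computes.fst Computes.snd) Computes.snd)).comp hN).le
      fun q => ?_
    exact le_rfl
  have h2 := Computes.caseList (β := β) hL h1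
  refine ⟨K + L + N + 20, (Computes.comp (Computes.pair Computes.id hK) h2).le fun p => ?_⟩
  have h3 : 1 ≤ (p.1 + 1) ^ j := Nat.one_le_pow _ _ (by omega)
  simp only
  cases f p with
  | nil =>
    simp only [caseList_nil]
    nlinarith [Nat.zero_le (L * (p.1 + 1) ^ j), Nat.zero_le (N * (p.1 + 1) ^ j)]
  | cons b t =>
    simp only [caseList_cons]
    nlinarith [Nat.zero_le (L * (p.1 + 1) ^ j), Nat.zero_le (N * (p.1 + 1) ^ j)]

/-- A loop with `m` rounds, body depending on an environment; the number of rounds is the first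
component of the argument. -/
theorem loopAux {s : ℕ × (ε × α) → α} (hs : PC j s) :
    ∃ K : ℕ, Computes (fun p : ℕ × (ℕ × (ε × α)) =>
        (fun a => s (p.2.1, (p.2.2.1, a)))^[p.1] p.2.2.2)
      (fun p => K * (p.1 + 1) * (p.2.1 + 1) ^ j) := by
  obtain ⟨K, hK⟩ := hs
  -- body on the state `(n, e, a)`
  have hb : Computes (fun q : ℕ × (ε × α) => (q.1, (q.2.1, s q)))
      (fun q => 10 + K * (q.1 + 1) ^ j) := by
    refine (Computes.pair Computes.fst
      (Computes.pair (Computes.comp Computes.snd Computes.fst) hK)).le fun q => ?_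
    omega
  have hl := Computes.loop hb
  have hit : ∀ (i : ℕ) (n : ℕ) (e : ε) (a : α),
      (fun q : ℕ × (ε × α) => (q.1, (q.2.1, s q)))^[i] (n, (e, a))
        = (n, (e, (fun a => s (n, (e, a)))^[i] a)) := by
    intro i
    induction i with
    | zero => intro n e a; rfl
    | succ i ih =>
      intro n e a
      rw [Function.iterate_succ_apply, Function.iterate_succ_apply]
      exact ih n e _
  refine ⟨K + 14, ?_⟩
  have h2 := (hl.comp Computes.snd).comp Computes.snd
  have h3 : (fun p : ℕ × (ℕ × (ε × α)) =>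
        (fun a => s (p.2.1, (p.2.2.1, a)))^[p.1] p.2.2.2)
      = fun p : ℕ × (ℕ × (ε × α)) =>
        ((((fun q : ℕ × (ε × α) => (q.1, (q.2.1, s q)))^[p.1] p.2)).2).2 := by
    funext p
    obtain ⟨m, n, e, a⟩ := p
    simp only [hit]
  rw [h3]
  refine h2.le ?_
  rintro ⟨m, n, e, a⟩
  simp only [hit]
  rw [Finset.sum_const, Finset.card_range, smul_eq_mul]
  have h1 : 1 ≤ (n + 1) ^ j := Nat.one_le_pow _ _ (by omega)
  have h5 : m * (10 + K * (n + 1) ^ j + 1) ≤ (m + 1) * ((11 + K) * (n + 1) ^ j) := by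
    apply Nat.mul_le_mul (by omega)
    nlinarith
  have h6 : 2 ≤ (m + 1) * (2 * (n + 1) ^ j) := by nlinarith
  nlinarith

/-- A loop with `n` rounds. -/
theorem loop {s : ℕ × (ε × α) → α} (hs : PC j s) :
    PC (j + 1) (fun p : ℕ × (ε × α) => (fun a => s (p.1, (p.2.1, a)))^[p.1] p.2.2) := by
  obtain ⟨K, hK⟩ := loopAux hs
  refine ⟨K + 3, (Computes.comp (Computes.pair Computes.fst Computes.id) hK).le ?_⟩
  rintro ⟨n, e, a⟩
  simp only
  have h1 : 1 ≤ (n + 1) ^ j := Nat.one_le_pow _ _ (by omega)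
  rw [pow_succ]
  nlinarith [Nat.zero_le (K * (n + 1) ^ j * (n + 1))]

/-- A loop with `n` rounds, with computed environment and initial value. -/
theorem loop' {s : ℕ × (ε × α) → α} {e : ℕ × γ → ε} {a : ℕ × γ → α} (hs : PC j s)
    (he : PC (j + 1) e) (ha : PC (j + 1) a) :
    PC (j + 1) (fun p : ℕ × γ => (fun x => s (p.1, (e p, x)))^[p.1] (a p)) :=
  comp (he.pair ha) (loop hs)

end PC

end Pool.Agent.TridiagGap
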