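import Pool.Agent.Helper693.Tri.Algo
import Pool.Agent.Helper693.Tri.PC

set_option autoImplicit false

noncomputable section
namespace Pool.Agent.TridiagGap

/-! ### Cost of the algorithm -/

abbrev L3 := List ℂ × List ℂ × List ℂ
abbrev ES := List ℂ × List ℂ × ℂ × ℂ × ℂ
abbrev SpS := List Ent × PS × ℂ × ℂ

theorem pc_nsq {α : Type} {j : ℕ} {f : ℕ × α → ℂ} (hf : PC j f) : PC j (fun p => nsq (f p)) :=
  hf.mul ((hf.re.add hf.re).sub hf)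

theorem pc_axBody : PC 0 (fun p : ℕ × (ℂ × L3) => axBody p.2.1 p.2.2) :=
  PC.caseL (f := fun p : ℕ × (ℂ × L3) => p.2.2.1) (g := fun p : ℕ × (ℂ × L3) => p.2.2)
    (h := fun q : ℕ × ((ℂ × L3) × ℂ × List ℂ) => caseList q.2.1.2.2.1 q.2.1.2
      (fun a u => (q.2.2.2, u, (a + q.2.1.1 * q.2.2.1) :: q.2.1.2.2.2)))
    PC.arg.snd.fst PC.arg.snd
    (PC.caseL (f := fun q : ℕ × ((ℂ × L3) × ℂ × List ℂ) => q.2.1.2.2.1)
      (g := fun q : ℕ × ((ℂ × L3) × ℂ × List ℂ) => q.2.1.2)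
      (h := fun r : ℕ × (((ℂ × L3) × ℂ × List ℂ) × ℂ × List ℂ) =>
        (r.2.1.2.2, r.2.2.2, (r.2.2.1 + r.2.1.1.1 * r.2.1.2.1) :: r.2.1.1.2.2.2))
      PC.arg.fst.snd.snd.fst PC.arg.fst.snd
      (PC.arg.fst.snd.snd.pair (PC.arg.snd.snd.pair
        ((PC.arg.snd.fst.add (PC.arg.fst.fst.fst.mul PC.arg.fst.snd.fst)).cons
          PC.arg.fst.fst.snd.snd.snd))))

theorem pc_revBody {ε β : Type} :
    PC 0 (fun p : ℕ × (ε × (List β × List β)) => revBody p.2.2) :=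
  PC.caseL (f := fun p : ℕ × (ε × (List β × List β)) => p.2.2.1)
    (g := fun p : ℕ × (ε × (List β × List β)) => p.2.2)
    (h := fun q : ℕ × ((ε × (List β × List β)) × β × List β) =>
      (q.2.2.2, q.2.2.1 :: q.2.1.2.2))
    PC.arg.snd.fst PC.arg.snd
    (PC.arg.snd.snd.pair (PC.arg.snd.fst.cons PC.arg.fst.snd.snd))

theorem pc_axLoop0 : PC 1 (fun p : ℕ × (ℂ × List ℂ × List ℂ) =>
    axLoop p.1 p.2.1 p.2.2.1 p.2.2.2) := by
  have h1 : PC 1 (fun p : ℕ × (ℂ × List ℂ × List ℂ) =>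
      (axBody p.2.1)^[p.1] (p.2.2.1, p.2.2.2, [])) :=
    PC.loop' (e := fun p : ℕ × (ℂ × List ℂ × List ℂ) => p.2.1)
      (a := fun p : ℕ × (ℂ × List ℂ × List ℂ) => (p.2.2.1, p.2.2.2, ([] : List ℂ))) pc_axBody
      PC.arg.fst (PC.arg.snd.fst.pair (PC.arg.snd.snd.pair PC.nil))
  have h2 : PC 1 (fun p : ℕ × (ℂ × List ℂ × List ℂ) =>
      (revBody^[p.1] ((((axBody p.2.1)^[p.1] (p.2.2.1, p.2.2.2, [])).2.2,
      ((axBody p.2.1)^[p.1] (p.2.2.1, p.2.2.2, [])).2.1)))) :=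
    PC.loop' (e := fun p : ℕ × (ℂ × List ℂ × List ℂ) => p.2.1)
    (a := fun p : ℕ × (ℂ × List ℂ × List ℂ) =>
      (((axBody p.2.1)^[p.1] (p.2.2.1, p.2.2.2, [])).2.2,
      ((axBody p.2.1)^[p.1] (p.2.2.1, p.2.2.2, [])).2.1))
    (pc_revBody (ε := ℂ) (β := ℂ)) PC.arg.fst (h1.snd.snd.pair h1.snd.fst)
  exact h2.snd

theorem pc_axLoop {α : Type} {j : ℕ} {c : ℕ × α → ℂ} {v u : ℕ × α → List ℂ}
    (hc : PC (j + 1) c) (hv : PC (j + 1) v) (hu : PC (j + 1) u) :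
    PC (j + 1) (fun p => axLoop p.1 (c p) (v p) (u p)) :=
  PC.comp (f := fun p => (c p, v p, u p)) (hc.pair (hv.pair hu)) (pc_axLoop0.mono (by omega))

theorem pc_cpStep {α : Type} {j : ℕ} {P : ℕ × α → PS} {e : ℕ × α → Ent}
    (hP : PC (j + 1) P) (he : PC (j + 1) e) : PC (j + 1) (fun p => cpStep p.1 (P p) (e p)) :=
  (pc_axLoop hP.snd.snd.neg hP.snd.fst
    (pc_axLoop he.fst.neg hP.fst (PC.zero.cons hP.fst))).pair
    (hP.fst.pair (he.snd.fst.mul he.snd.snd))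

theorem pc_cpBody {ε : Type} :
    PC 1 (fun p : ℕ × (ε × (List Ent × PS)) => cpBody p.1 p.2.2) :=
  PC.caseL (f := fun p : ℕ × (ε × (List Ent × PS)) => p.2.2.1)
    (g := fun p : ℕ × (ε × (List Ent × PS)) => p.2.2)
    (h := fun q : ℕ × ((ε × (List Ent × PS)) × Ent × List Ent) =>
      (q.2.2.2, cpStep q.1 q.2.1.2.2 q.2.2.1))
    PC.arg.snd.fst PC.arg.snd
    (PC.arg.snd.snd.pair (pc_cpStep (j := 0) PC.arg.fst.snd.snd PC.arg.snd.fst))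

theorem pc_cpAll {α : Type} {j : ℕ} {l : ℕ × α → List Ent} (hl : PC (j + 2) l) :
    PC (j + 2) (fun p => cpAll p.1 (l p)) := by
  have h1 : PC 2 (fun p : ℕ × List Ent => (cpBody p.1)^[p.1] (p.2, (([1], [], 0) : PS))) :=
    PC.loop' (e := fun p : ℕ × List Ent => p.2)
      (a := fun p : ℕ × List Ent => (p.2, (([1], [], 0) : PS)))
      (pc_cpBody (ε := List Ent)) PC.arg
      (PC.arg.pair ((PC.one.cons PC.nil).pair (PC.nil.pair PC.zero)))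
  have h : PC 2 (fun p : ℕ × List Ent => cpAll p.1 p.2) := h1.snd.fst
  exact PC.comp (f := l) hl (h.mono (by omega))

theorem pc_euSwap {α : Type} {j : ℕ} {f : ℕ × α → ES} (hf : PC j f) :
    PC j (fun p => euSwap (f p)) :=
  PC.branch (h := fun p => (f p).2.2.1 - (f p).2.2.2.1) (hf.snd.snd.fst.sub hf.snd.snd.snd.fst)
    hf (hf.snd.fst.pair (hf.fst.pair (hf.snd.snd.snd.fst.pair
      (hf.snd.snd.fst.pair hf.snd.snd.snd.snd))))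

theorem pc_euRed0 : PC 1 (fun p : ℕ × ES => euRed p.1 p.2) :=
  PC.caseL (f := fun p : ℕ × ES => p.2.1) (g := fun p : ℕ × ES => p.2)
    (h := fun q : ℕ × (ES × ℂ × List ℂ) => caseList q.2.1.2.1 q.2.1 fun b gs =>
      if 0 ≤ (-(nsq b)).re then
        (q.2.1.1, gs, q.2.1.2.2.1, q.2.1.2.2.2.1 - 1, q.2.1.2.2.2.2 * q.2.2.1)
      else (axLoop q.1 (-(q.2.2.1 / b)) gs q.2.2.2, q.2.1.2.1, q.2.1.2.2.1 - 1, q.2.1.2.2.2.1,
        q.2.1.2.2.2.2 * b))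
    PC.arg.fst PC.arg
    (PC.caseL (f := fun q : ℕ × (ES × ℂ × List ℂ) => q.2.1.2.1)
      (g := fun q : ℕ × (ES × ℂ × List ℂ) => q.2.1)
      (h := fun r : ℕ × ((ES × ℂ × List ℂ) × ℂ × List ℂ) =>
        if 0 ≤ (-(nsq r.2.2.1)).re then
        (r.2.1.1.1, r.2.2.2, r.2.1.1.2.2.1, r.2.1.1.2.2.2.1 - 1,
          r.2.1.1.2.2.2.2 * r.2.1.2.1)
      else (axLoop r.1 (-(r.2.1.2.1 / r.2.2.1)) r.2.2.2 r.2.1.2.2, r.2.1.1.2.1,
        r.2.1.1.2.2.1 - 1, r.2.1.1.2.2.2.1, r.2.1.1.2.2.2.2 * r.2.2.1))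
      PC.arg.fst.snd.fst PC.arg.fst
      (PC.branch (h := fun r : ℕ × ((ES × ℂ × List ℂ) × ℂ × List ℂ) => -(nsq r.2.2.1))
        (pc_nsq PC.arg.snd.fst).neg
        (PC.arg.fst.fst.fst.pair (PC.arg.snd.snd.pair (PC.arg.fst.fst.snd.snd.fst.pair
          ((PC.arg.fst.fst.snd.snd.snd.fst.sub PC.one).pair
            (PC.arg.fst.fst.snd.snd.snd.snd.mul PC.arg.fst.snd.fst)))))
        ((pc_axLoop (j := 0) (PC.arg.fst.snd.fst.div PC.arg.snd.fst).neg PC.arg.snd.snd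
          PC.arg.fst.snd.snd).pair
          (PC.arg.fst.fst.snd.fst.pair
            ((PC.arg.fst.fst.snd.snd.fst.sub PC.one).pair
              (PC.arg.fst.fst.snd.snd.snd.fst.pair
                (PC.arg.fst.fst.snd.snd.snd.snd.mul PC.arg.snd.fst)))))))

theorem pc_euBody {ε : Type} : PC 1 (fun p : ℕ × (ε × ES) => euBody p.1 p.2.2) :=
  PC.comp (f := fun p : ℕ × (ε × ES) => euSwap p.2.2)
    (g := fun p : ℕ × ES => euRed p.1 p.2) (pc_euSwap PC.arg.snd) pc_euRed0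

theorem pc_eu {α : Type} {j : ℕ} {f g : ℕ × α → List ℂ} {df dg : ℕ × α → ℂ}
    (hf : PC (j + 2) f) (hg : PC (j + 2) g) (hdf : PC (j + 2) df) (hdg : PC (j + 2) dg) :
    PC (j + 2) (fun p => eu p.1 (f p) (g p) (df p) (dg p)) := by
  have h1 : PC 2 (fun p : ℕ × (List ℂ × List ℂ × ℂ × ℂ) =>
      (euBody p.1)^[p.1] (p.2.1, p.2.2.1, p.2.2.2.1, p.2.2.2.2, (1 : ℂ))) :=
    PC.loop' (e := fun p : ℕ × (List ℂ × List ℂ × ℂ × ℂ) => p.2.2.2.1)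
      (a := fun p : ℕ × (List ℂ × List ℂ × ℂ × ℂ) =>
        (p.2.1, p.2.2.1, p.2.2.2.1, p.2.2.2.2, (1 : ℂ))) pc_euBody PC.arg.snd.snd.fst
      (PC.arg.fst.pair (PC.arg.snd.fst.pair (PC.arg.snd.snd.fst.pair
        (PC.arg.snd.snd.snd.pair PC.one))))
  have h : PC 2 (fun p : ℕ × (List ℂ × List ℂ × ℂ × ℂ) =>
      eu p.1 p.2.1 p.2.2.1 p.2.2.2.1 p.2.2.2.2) := h1.snd.snd.snd.snd
  exact PC.comp (f := fun p => (f p, g p, df p, dg p)) (hf.pair (hg.pair (hdf.pair hdg)))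
    (h.mono (by omega))

theorem pc_spBody :
    PC 2 (fun p : ℕ × (ℂ × SpS) => spBody p.1 p.2.1 p.2.2) := by
  -- the new polynomial state
  have hP : PC 2 (fun q : ℕ × ((ℂ × SpS) × Ent × List Ent) =>
      cpStep q.1 q.2.1.2.2.1 q.2.2.1) :=
    pc_cpStep (j := 1) PC.arg.fst.snd.snd.fst PC.arg.snd.fst
  have hP' : PC 2 (fun r : ℕ × (((ℂ × SpS) × Ent × List Ent) × Ent ×
      List Ent) => cpStep r.1 r.2.1.1.2.2.1 r.2.1.2.1) :=
    pc_cpStep (j := 1) PC.arg.fst.fst.snd.snd.fst PC.arg.fst.snd.fst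
  have hE : PC 2 (fun r : ℕ × (((ℂ × SpS) × Ent × List Ent) × Ent × List Ent) =>
      eu r.1 (cpStep r.1 r.2.1.1.2.2.1 r.2.1.2.1).1 (cpAll r.1 r.2.1.2.2)
          (r.2.1.1.2.2.2.1 + 1) (r.2.1.1.1 - (r.2.1.1.2.2.2.1 + 1))) :=
    pc_eu (j := 0) hP'.fst (pc_cpAll (j := 0) PC.arg.fst.snd.snd)
          (PC.arg.fst.fst.snd.snd.snd.fst.add PC.one)
          (PC.arg.fst.fst.fst.sub (PC.arg.fst.fst.snd.snd.snd.fst.add PC.one))
  exact PC.caseL (f := fun p : ℕ × (ℂ × SpS) => p.2.2.1) (g := fun p : ℕ × (ℂ × SpS) => p.2.2)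
    (h := fun q : ℕ × ((ℂ × SpS) × Ent × List Ent) => caseList q.2.2.2
      (q.2.2.2, cpStep q.1 q.2.1.2.2.1 q.2.2.1, q.2.1.2.2.2.1 + 1, q.2.1.2.2.2.2) fun _ _ =>
      (q.2.2.2, cpStep q.1 q.2.1.2.2.1 q.2.2.1, q.2.1.2.2.2.1 + 1, q.2.1.2.2.2.2 *
        nsq (eu q.1 (cpStep q.1 q.2.1.2.2.1 q.2.2.1).1 (cpAll q.1 q.2.2.2)
          (q.2.1.2.2.2.1 + 1) (q.2.1.1 - (q.2.1.2.2.2.1 + 1)))))
    PC.arg.snd.fst PC.arg.snd
    (PC.caseL (f := fun q : ℕ × ((ℂ × SpS) × Ent × List Ent) => q.2.2.2)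
      (g := fun q : ℕ × ((ℂ × SpS) × Ent × List Ent) =>
        (q.2.2.2, cpStep q.1 q.2.1.2.2.1 q.2.2.1, q.2.1.2.2.2.1 + 1, q.2.1.2.2.2.2))
      (h := fun r : ℕ × (((ℂ × SpS) × Ent × List Ent) × Ent × List Ent) =>
        (r.2.1.2.2, cpStep r.1 r.2.1.1.2.2.1 r.2.1.2.1, r.2.1.1.2.2.2.1 + 1,
        r.2.1.1.2.2.2.2 *
        nsq (eu r.1 (cpStep r.1 r.2.1.1.2.2.1 r.2.1.2.1).1 (cpAll r.1 r.2.1.2.2)
          (r.2.1.1.2.2.2.1 + 1) (r.2.1.1.1 - (r.2.1.1.2.2.2.1 + 1)))))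
      PC.arg.snd.snd
      (PC.arg.snd.snd.pair (hP.pair ((PC.arg.fst.snd.snd.snd.fst.add PC.one).pair
        PC.arg.fst.snd.snd.snd.snd)))
      (PC.arg.fst.snd.snd.pair (hP'.pair ((PC.arg.fst.fst.snd.snd.snd.fst.add PC.one).pair
        (PC.arg.fst.fst.snd.snd.snd.snd.mul (pc_nsq hE))))))

theorem pc_bigF {α : Type} {nC : ℕ × α → ℂ} {l : ℕ × α → List Ent} (hn : PC 3 nC)
    (hl : PC 3 l) : PC 3 (fun p => bigF p.1 (nC p) (l p)) := by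
  have h1 : PC 3 (fun p : ℕ × (ℂ × List Ent) =>
      (spBody p.1 p.2.1)^[p.1] (p.2.2, (([1], [], 0) : PS), (0 : ℂ), (1 : ℂ))) :=
    PC.loop' (e := fun p : ℕ × (ℂ × List Ent) => p.2.1)
      (a := fun p : ℕ × (ℂ × List Ent) =>
        (p.2.2, (([1], [], 0) : PS), (0 : ℂ), (1 : ℂ))) pc_spBody PC.arg.fst
      (PC.arg.snd.pair (((PC.one.cons PC.nil).pair (PC.nil.pair PC.zero)).pair
        (PC.zero.pair PC.one)))
  have h : PC 3 (fun p : ℕ × (ℂ × List Ent) => bigF p.1 p.2.1 p.2.2) := h1.snd.snd.snd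
  exact PC.comp (f := fun p => (nC p, l p)) (hn.pair hl) h

theorem pc_shBody : PC 0 (fun p : ℕ × (ℂ × (List Ent × ℂ × List Ent)) => shBody p.2.1 p.2.2) :=
  PC.caseL (f := fun p : ℕ × (ℂ × (List Ent × ℂ × List Ent)) => p.2.2.1)
    (g := fun p : ℕ × (ℂ × (List Ent × ℂ × List Ent)) => p.2.2)
    (h := fun q : ℕ × ((ℂ × (List Ent × ℂ × List Ent)) × Ent × List Ent) =>
      (q.2.2.2, q.2.1.2.2.1 + 1,
        (q.2.2.1.1 + q.2.1.1 * (q.2.1.2.2.1 + 1), q.2.2.1.2) :: q.2.1.2.2.2))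
    PC.arg.snd.fst PC.arg.snd
    (PC.arg.snd.snd.pair ((PC.arg.fst.snd.snd.fst.add PC.one).pair
      (((PC.arg.snd.fst.fst.add (PC.arg.fst.fst.mul
        (PC.arg.fst.snd.snd.fst.add PC.one))).pair PC.arg.snd.fst.snd).cons
        PC.arg.fst.snd.snd.snd)))

theorem pc_shift {α : Type} {z : ℕ × α → ℂ} {l : ℕ × α → List Ent} (hz : PC 3 z)
    (hl : PC 3 l) : PC 3 (fun p => shift p.1 (z p) (l p)) := by
  have h1 : PC 1 (fun p : ℕ × (ℂ × List Ent) => (shBody p.2.1)^[p.1] (p.2.2, 0, [])) :=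
    PC.loop' (e := fun p : ℕ × (ℂ × List Ent) => p.2.1)
      (a := fun p : ℕ × (ℂ × List Ent) => (p.2.2, (0 : ℂ), ([] : List Ent))) pc_shBody
      PC.arg.fst (PC.arg.snd.pair (PC.zero.pair PC.nil))
  have h2 : PC 1 (fun p : ℕ × (ℂ × List Ent) =>
      (revBody^[p.1] (((shBody p.2.1)^[p.1] (p.2.2, 0, [])).2.2, ([] : List Ent)))) :=
    PC.loop' (e := fun p : ℕ × (ℂ × List Ent) => p.2.1)
      (a := fun p : ℕ × (ℂ × List Ent) =>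
        (((shBody p.2.1)^[p.1] (p.2.2, 0, [])).2.2, ([] : List Ent)))
      (pc_revBody (ε := ℂ) (β := Ent)) PC.arg.fst (h1.snd.snd.pair PC.nil)
  have h3 : PC 1 (fun p : ℕ × (ℂ × List Ent) => shift p.1 p.2.1 p.2.2) := h2.snd
  exact PC.comp (f := fun p => (z p, l p)) (hz.pair hl) (h3.mono (by omega))

theorem pc_fz {α : Type} {nC z : ℕ × α → ℂ} {l : ℕ × α → List Ent} (hn : PC 3 nC)
    (hl : PC 3 l) (hz : PC 3 z) : PC 3 (fun p => fz p.1 (nC p) (l p) (z p)) :=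
  pc_bigF hn (pc_shift hz hl)

theorem pc_cmp {α : Type} {nC x v : ℕ × α → ℂ} {l : ℕ × α → List Ent} (hn : PC 3 nC)
    (hl : PC 3 l) (hx : PC 3 x) (hv : PC 3 v) :
    PC 3 (fun p => cmp p.1 (nC p) (l p) (x p) (v p)) :=
  ((pc_fz hn hl ((hx.sub hv).add (PC.imag.mul hv))).mul
    (pc_fz hn hl ((hx.add hv).add (PC.imag.mul (hv.add hv))))).sub
  ((pc_fz hn hl ((hx.add hv).add (PC.imag.mul hv))).mul
    (pc_fz hn hl ((hx.sub hv).add (PC.imag.mul (hv.add hv)))))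

theorem pc_roundBody :
    PC 3 (fun p : ℕ × ((ℂ × List Ent) × (ℂ × ℂ)) => roundBody p.1 p.2.1 p.2.2) := by
  have h2 : PC 3 (fun p : ℕ × ((ℂ × List Ent) × (ℂ × ℂ)) => p.2.2.2 / (1 + 1)) :=
    PC.arg.snd.snd.div (PC.one.add PC.one)
  exact PC.branch
    (h := fun p : ℕ × ((ℂ × List Ent) × (ℂ × ℂ)) =>
      cmp p.1 p.2.1.1 p.2.1.2 p.2.2.1 (p.2.2.2 / (1 + 1)))
    (pc_cmp PC.arg.fst.fst PC.arg.fst.snd PC.arg.snd.fst h2)
    ((PC.arg.snd.fst.sub h2).pair h2) ((PC.arg.snd.fst.add h2).pair h2)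

theorem pc_natC {α : Type} {j : ℕ} : PC (j + 1) (fun p : ℕ × α => natC p.1) := by
  have h : PC 1 (fun p : ℕ × α => natC p.1) :=
    PC.loop' (s := fun p : ℕ × (ℂ × ℂ) => p.2.2 + 1) (e := fun _ => (0 : ℂ))
      (a := fun _ => (0 : ℂ)) (PC.arg.snd.add PC.one) PC.zero PC.zero
  exact h.mono (by omega)

theorem pc_clogBody : PC 0 (fun p : ℕ × (ℂ × (ℂ × ℕ)) => clogBody p.2.1 p.2.2) :=
  PC.branch (h := fun p : ℕ × (ℂ × (ℂ × ℕ)) => p.2.2.1 - p.2.1)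
    (PC.arg.snd.fst.sub PC.arg.fst) PC.arg.snd
    ((PC.arg.snd.fst.add PC.arg.snd.fst).pair
      (PC.natSucc (PC.natSucc (PC.natSucc (PC.natSucc (PC.natSucc (PC.natSucc (PC.natSucc
        (PC.natSucc (PC.natSucc (PC.natSucc PC.arg.snd.snd)))))))))))

theorem pc_rounds {α : Type} {j : ℕ} : PC (j + 1) (fun p : ℕ × α => rounds p.1) := by
  have h1 : PC 1 (fun p : ℕ × α => (clogBody (natC p.1))^[p.1] ((1 : ℂ), (0 : ℕ))) :=
    PC.loop' (e := fun p : ℕ × α => natC p.1) (a := fun _ => ((1 : ℂ), (0 : ℕ))) pc_clogBody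
      pc_natC (PC.one.pair PC.natZero)
  have h : PC 1 (fun p : ℕ × α => rounds p.1) := h1.snd
  exact h.mono (by omega)

/-- the cost of the search -/
theorem cost_search : ∃ K : ℕ, Computes
    (fun p : ℕ × (ℂ × List Ent) => search p.1 p.2.1 p.2.2)
    (fun p => K * (rounds p.1 + 1) * (p.1 + 1) ^ 3) := by
  obtain ⟨K, hK⟩ := PC.loopAux pc_roundBody
  have hT : PC 3 (fun p : ℕ × (ℂ × List Ent) => p.2.1 / natC p.1 / (1 + 1)) :=
    (PC.arg.fst.div pc_natC).div (PC.one.add PC.one)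
  obtain ⟨L, hL⟩ := (pc_rounds (α := ℂ × List Ent) (j := 2)).pair
    (PC.n.pair ((pc_natC.pair PC.arg.snd).pair (hT.pair hT)))
  refine ⟨L + K, (hL.comp hK).le ?_⟩
  rintro ⟨n, δ, l⟩
  simp only
  have e : (n + 1) ^ (2 + 1) = (n + 1) ^ 3 := rfl
  rw [e]
  generalize (n + 1) ^ 3 = N
  generalize rounds n = r
  have h1 : (L + K) * (r + 1) * N = L * N + K * (r + 1) * N + L * r * N := by ring
  rw [h1]
  exact Nat.le_add_right _ _

theorem pc_outBody : PC 0 (fun p : ℕ × (ℂ × (ℂ × List ℂ)) => outBody p.2.1 p.2.2) :=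
  (PC.arg.snd.fst.sub PC.one).pair ((PC.arg.fst.mul PC.arg.snd.fst).cons PC.arg.snd.snd)

theorem cost_algo : ∃ K : ℕ, Computes algo
    (fun p => K * (rounds p.1 + 1) * (p.1 + 1) ^ 3) := by
  obtain ⟨K, hK⟩ := cost_search
  -- input `(n, t, δ)`
  have h1 : PC 1 (fun p : ℕ × (ℂ × ℂ) => ((outBody (p.2.1 / p.2.2))^[p.1] (natC p.1, []))) :=
    PC.loop' (e := fun p : ℕ × (ℂ × ℂ) => p.2.1 / p.2.2)
      (a := fun p : ℕ × (ℂ × ℂ) => (natC p.1, ([] : List ℂ))) pc_outBody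
      (PC.arg.fst.div PC.arg.snd) (pc_natC.pair PC.nil)
  obtain ⟨L, hL⟩ := h1.snd
  have h2 := (Computes.pair Computes.fst (Computes.pair (hK.comp Computes.fst)
    (Computes.comp Computes.snd Computes.fst))).comp hL
  refine ⟨K + L + 10, (h2.le ?_)⟩
  rintro ⟨n, δ, l⟩
  simp only
  have h3 : 1 ≤ (rounds n + 1) * (n + 1) ^ 3 := Nat.one_le_iff_ne_zero.2 (by positivity)
  have h4 : (n + 1) ^ (0 + 1) ≤ (rounds n + 1) * (n + 1) ^ 3 := by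
    calc (n + 1) ^ (0 + 1) ≤ (n + 1) ^ 3 := Nat.pow_le_pow_right (by omega) (by omega)
      _ ≤ (rounds n + 1) * (n + 1) ^ 3 := Nat.le_mul_of_pos_left _ (by omega)
  have h5 : (K + L + 10) * (rounds n + 1) * (n + 1) ^ 3
      = K * (rounds n + 1) * (n + 1) ^ 3 + L * ((rounds n + 1) * (n + 1) ^ 3)
        + 10 * ((rounds n + 1) * (n + 1) ^ 3) := by ring
  have h6 : L * (n + 1) ^ 1 ≤ L * ((rounds n + 1) * (n + 1) ^ 3) := Nat.mul_le_mul_left _ h4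
  rw [h5]
  omega

end Pool.Agent.TridiagGap
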