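import Mathlib
set_option autoImplicit false
open scoped BigOperators Polynomial
open Polynomial

noncomputable section
namespace Pool.Agent.TridiagGap

/-- square block of an infinite array: rows and columns `s, ..., s + k - 1` -/
def blk (a : ℕ → ℕ → ℂ) (s k : ℕ) : Matrix (Fin k) (Fin k) ℂ :=
  Matrix.of fun i j => a (s + i) (s + j)

/-- the array with `z * (i + 1)` added at the diagonal position `i` -/
def pert (a : ℕ → ℕ → ℂ) (z : ℂ) : ℕ → ℕ → ℂ :=
  fun i j => a i j + if i = j then z * ((i : ℂ) + 1) else 0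

/-- the operator `X ↦ R X - X L` for the two complementary blocks `L = [0,k)`, `R = [k,n)` -/
def syl (a : ℕ → ℕ → ℂ) (n k : ℕ) (z : ℂ) :
    Matrix (Fin (n - k) × Fin k) (Fin (n - k) × Fin k) ℂ :=
  Matrix.kronecker (blk (pert a z) k (n - k)) (1 : Matrix (Fin k) (Fin k) ℂ)
    - Matrix.kronecker (1 : Matrix (Fin (n - k)) (Fin (n - k)) ℂ) (blk (pert a z) 0 k)

/-- Hermitian tridiagonal infinite array -/
structure HT (a : ℕ → ℕ → ℂ) : Prop where
  herm : ∀ i j, a j i = (starRingEnd ℂ) (a i j)
  tri : ∀ i j, i + 1 < j → a i j = 0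

/-- list of coefficients, constant term first -/
def toPoly : List ℂ → ℂ[X]
  | [] => 0
  | a :: l => C a + X * toPoly l

/-- `u + c * v`, aligned at the head -/
def axpy (c : ℂ) : List ℂ → List ℂ → List ℂ
  | [], u => u
  | _ :: _, [] => []
  | b :: v, a :: u => (a + c * b) :: axpy c v u

/-- one elimination step on `(f, g, acc)`, assuming `g` is not longer than `f` -/
def redStep (s : List ℂ × List ℂ × ℂ) : List ℂ × List ℂ × ℂ :=
  match s with
  | (a :: fs, b :: gs, acc) =>
      if b = 0 then (a :: fs, gs, acc * a) else (axpy (-(a / b)) gs fs, b :: gs, acc * b)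
  | _ => s

/-- one step of the Euclidean algorithm -/
def euStep (s : List ℂ × List ℂ × ℂ) : List ℂ × List ℂ × ℂ :=
  if s.2.1.length ≤ s.1.length then redStep s else redStep (s.2.1, s.1, s.2.2)

end Pool.Agent.TridiagGap
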