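import Pool.Agent.Helper693.Tri.Defs

set_option autoImplicit false
open scoped BigOperators Polynomial
open Polynomial

noncomputable section
namespace Pool.Agent.TridiagGap

theorem TG2_nrm {ι : Type} [Fintype ι] (v : ι → ℂ) :
    ((∑ r, ‖v r‖ ^ 2 : ℝ) : ℂ) = star v ⬝ᵥ v := by
  unfold dotProduct
  push_cast
  apply Finset.sum_congr rfl
  intro r _
  simp only [Pi.star_apply]
  rw [Complex.star_def, Complex.conj_mul']

theorem TG2_unit {ι : Type} [Fintype ι] [DecidableEq ι] (U : Matrix ι ι ℂ)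
    (hU : U.conjTranspose * U = 1) (v : ι → ℂ) :
    ∑ r, ‖U.mulVec v r‖ ^ 2 = ∑ r, ‖v r‖ ^ 2 := by
  have h : ((∑ r, ‖U.mulVec v r‖ ^ 2 : ℝ) : ℂ) = ((∑ r, ‖v r‖ ^ 2 : ℝ) : ℂ) := by
    rw [TG2_nrm, TG2_nrm, Matrix.star_mulVec, ← Matrix.dotProduct_mulVec, Matrix.mulVec_mulVec, hU,
      Matrix.one_mulVec]
  exact_mod_cast h

theorem TG2_gen {ι : Type} [Fintype ι] [DecidableEq ι] (S0 : Matrix ι ι ℂ) (hS : S0.IsHermitian)
    (d : ι → ℝ) (hd : ∀ r, 1 ≤ d r) :
    ∃ τ : ι → ℝ, ∃ c : ℝ, 0 < c ∧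
      (∀ t y : ℝ, ‖(S0 + Matrix.diagonal (fun r => ((t : ℂ) + y * Complex.I) * (d r : ℂ))).det‖ ^ 2
        = c * ∏ r, ((t - τ r) ^ 2 + y ^ 2)) ∧
      (∀ t y : ℝ, 0 ≤ y → (∀ r, y ≤ |t - τ r|) → ∀ x : ι → ℂ,
        y ^ 2 * ∑ r, ‖x r‖ ^ 2 ≤
          ∑ r, ‖(S0 + Matrix.diagonal (fun r => (t : ℂ) * (d r : ℂ))).mulVec x r‖ ^ 2) := by
  set w : ι → ℝ := fun r => Real.sqrt (d r) with hw
  have hd0 : ∀ r, 0 < d r := fun r => lt_of_lt_of_le zero_lt_one (hd r)
  have hw0 : ∀ r, 0 < w r := fun r => Real.sqrt_pos.mpr (hd0 r)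
  have hww : ∀ r, w r * w r = d r := fun r => Real.mul_self_sqrt (hd0 r).le
  have hwc : ∀ r, (w r : ℂ) ≠ 0 := fun r => by exact_mod_cast (hw0 r).ne'
  set W : Matrix ι ι ℂ := Matrix.diagonal (fun r => (w r : ℂ)) with hW
  set V : Matrix ι ι ℂ := Matrix.diagonal (fun r => ((w r)⁻¹ : ℂ)) with hV
  have hWV : W * V = 1 := by
    rw [hW, hV, Matrix.diagonal_mul_diagonal, ← Matrix.diagonal_one]
    congr 1
    funext r
    exact mul_inv_cancel₀ (hwc r)
  have hVW : V * W = 1 := by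
    rw [hW, hV, Matrix.diagonal_mul_diagonal, ← Matrix.diagonal_one]
    congr 1
    funext r
    exact inv_mul_cancel₀ (hwc r)
  have hVh : V.conjTranspose = V := by
    rw [hV, Matrix.diagonal_conjTranspose]
    congr 1
    funext r
    simp only [Pi.star_apply]
    rw [Complex.star_def, map_inv₀, Complex.conj_ofReal]
  set H : Matrix ι ι ℂ := V * S0 * V with hH
  have hHh : H.IsHermitian := by
    unfold Matrix.IsHermitian
    rw [hH, Matrix.conjTranspose_mul, Matrix.conjTranspose_mul, hVh, hS.eq, Matrix.mul_assoc]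
  have hS0 : S0 = W * H * W := by
    rw [hH]
    calc S0 = (W * V) * S0 * (V * W) := by rw [hWV, hVW, Matrix.one_mul, Matrix.mul_one]
      _ = W * (V * S0 * V) * W := by simp only [Matrix.mul_assoc]
  set e : ι → ℝ := hHh.eigenvalues with he
  set U : Matrix ι ι ℂ := (hHh.eigenvectorUnitary : Matrix ι ι ℂ) with hU
  have hUU : U.conjTranspose * U = 1 := by
    have := (Matrix.mem_unitaryGroup_iff').mp hHh.eigenvectorUnitary.2
    rw [Matrix.star_eq_conjTranspose] at this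
    exact this
  have hUU' : U * U.conjTranspose = 1 := by
    have := (Matrix.mem_unitaryGroup_iff).mp hHh.eigenvectorUnitary.2
    rw [Matrix.star_eq_conjTranspose] at this
    exact this
  have hspec : H = U * Matrix.diagonal (fun r => (e r : ℂ)) * U.conjTranspose := by
    have := hHh.spectral_theorem
    rw [Unitary.conjStarAlgAut_apply] at this
    exact this
  have hSz : ∀ z : ℂ, S0 + Matrix.diagonal (fun r => z * (d r : ℂ)) =
      W * (U * Matrix.diagonal (fun r => (e r : ℂ) + z) * U.conjTranspose) * W := by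
    intro z
    have h1 : Matrix.diagonal (fun r => z * (d r : ℂ)) = W * (z • (1 : Matrix ι ι ℂ)) * W := by
      rw [Matrix.mul_smul, Matrix.mul_one, Matrix.smul_mul, hW, Matrix.diagonal_mul_diagonal]
      ext a b
      by_cases hab : a = b
      · subst hab
        simp only [Matrix.diagonal_apply_eq, Matrix.smul_apply, smul_eq_mul]
        rw [← Complex.ofReal_mul, hww]
      · simp [Matrix.diagonal_apply_ne _ hab]
    have h2 : U * Matrix.diagonal (fun r => (e r : ℂ) + z) * U.conjTranspose =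
        H + z • (1 : Matrix ι ι ℂ) := by
      have h3 : Matrix.diagonal (fun r => (e r : ℂ) + z) =
          Matrix.diagonal (fun r => (e r : ℂ)) + z • (1 : Matrix ι ι ℂ) := by
        rw [Matrix.smul_one_eq_diagonal, Matrix.diagonal_add]
      rw [h3, Matrix.mul_add, Matrix.add_mul, ← hspec, Matrix.mul_smul, Matrix.mul_one,
        Matrix.smul_mul, hUU']
    rw [h1, h2, Matrix.mul_add, Matrix.add_mul, ← hS0]
  have hdet : ∀ z : ℂ, (S0 + Matrix.diagonal (fun r => z * (d r : ℂ))).det =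
      (∏ r, (d r : ℂ)) * ∏ r, ((e r : ℂ) + z) := by
    intro z
    rw [hSz z, Matrix.det_mul, Matrix.det_mul, Matrix.det_mul, Matrix.det_mul, hW,
      Matrix.det_diagonal, Matrix.det_diagonal]
    have h1 : U.det * U.conjTranspose.det = 1 := by
      rw [← Matrix.det_mul, hUU', Matrix.det_one]
    have h2 : (∏ r, (w r : ℂ)) * (∏ r, (w r : ℂ)) = ∏ r, (d r : ℂ) := by
      rw [← Finset.prod_mul_distrib]
      apply Finset.prod_congr rfl
      intro r _
      rw [← Complex.ofReal_mul, hww]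
    calc (∏ r, (w r : ℂ)) * (U.det * (∏ r, ((e r : ℂ) + z)) * U.conjTranspose.det) *
          (∏ r, (w r : ℂ)) = ((∏ r, (w r : ℂ)) * (∏ r, (w r : ℂ))) * (∏ r, ((e r : ℂ) + z)) *
          (U.det * U.conjTranspose.det) := by ring
      _ = _ := by rw [h1, h2, mul_one]
  refine ⟨fun r => - e r, (∏ r, d r) ^ 2, ?_, ?_, ?_⟩
  · exact pow_pos (Finset.prod_pos (fun r _ => hd0 r)) 2
  · intro t y
    rw [hdet, norm_mul, mul_pow, ← Complex.ofReal_prod, Complex.norm_real, Real.norm_eq_abs, sq_abs,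
      norm_prod]
    congr 1
    rw [← Finset.prod_pow]
    apply Finset.prod_congr rfl
    intro r _
    have h1 : (e r : ℂ) + ((t : ℂ) + y * Complex.I) = (((e r + t : ℝ)) : ℂ) + (y : ℂ) * Complex.I := by
      push_cast; ring
    rw [h1, Complex.sq_norm, Complex.normSq_add_mul_I]
    ring
  · intro t y hy hty x
    rw [hSz]
    set x' : ι → ℂ := W.mulVec x with hx'
    have hx'r : ∀ r, x' r = (w r : ℂ) * x r := by
      intro r
      rw [hx', hW, Matrix.mulVec_diagonal]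
    set v : ι → ℂ := U.conjTranspose.mulVec x' with hv
    have h1 : (W * (U * Matrix.diagonal (fun r => (e r : ℂ) + (t : ℂ)) * U.conjTranspose) * W).mulVec x =
        W.mulVec (U.mulVec ((Matrix.diagonal (fun r => (e r : ℂ) + (t : ℂ))).mulVec v)) := by
      rw [hv, hx']
      simp only [Matrix.mulVec_mulVec, Matrix.mul_assoc]
    rw [h1]
    set q : ι → ℂ := (Matrix.diagonal (fun r => (e r : ℂ) + (t : ℂ))).mulVec v with hq
    have hqr : ∀ r, q r = ((e r : ℂ) + t) * v r := by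
      intro r
      rw [hq, Matrix.mulVec_diagonal]
    have h2 : ∑ r, ‖U.mulVec q r‖ ^ 2 ≤ ∑ r, ‖W.mulVec (U.mulVec q) r‖ ^ 2 := by
      apply Finset.sum_le_sum
      intro r _
      rw [hW, Matrix.mulVec_diagonal, norm_mul, mul_pow, Complex.norm_real, Real.norm_eq_abs, sq_abs,
        pow_two (w r), hww]
      nlinarith [hd r, sq_nonneg ‖U.mulVec q r‖]
    have h3 : ∑ r, ‖U.mulVec q r‖ ^ 2 = ∑ r, ‖q r‖ ^ 2 := TG2_unit U hUU q
    have h4 : y ^ 2 * ∑ r, ‖v r‖ ^ 2 ≤ ∑ r, ‖q r‖ ^ 2 := by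
      rw [Finset.mul_sum]
      apply Finset.sum_le_sum
      intro r _
      rw [hqr, norm_mul, mul_pow]
      apply mul_le_mul_of_nonneg_right _ (sq_nonneg _)
      have h5 : ‖(e r : ℂ) + t‖ = |t - (- e r)| := by
        rw [← Complex.ofReal_add, Complex.norm_real, Real.norm_eq_abs]
        congr 1
        ring
      rw [h5]
      exact pow_le_pow_left₀ hy (hty r) 2
    have h6 : ∑ r, ‖v r‖ ^ 2 = ∑ r, ‖x' r‖ ^ 2 := by
      rw [hv]
      apply TG2_unit
      rw [Matrix.conjTranspose_conjTranspose, hUU']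
    have h7 : ∑ r, ‖x r‖ ^ 2 ≤ ∑ r, ‖x' r‖ ^ 2 := by
      apply Finset.sum_le_sum
      intro r _
      rw [hx'r, norm_mul, mul_pow, Complex.norm_real, Real.norm_eq_abs, sq_abs, pow_two (w r), hww]
      nlinarith [hd r, sq_nonneg ‖x r‖]
    calc y ^ 2 * ∑ r, ‖x r‖ ^ 2 ≤ y ^ 2 * ∑ r, ‖x' r‖ ^ 2 :=
          mul_le_mul_of_nonneg_left h7 (sq_nonneg _)
      _ = y ^ 2 * ∑ r, ‖v r‖ ^ 2 := by rw [h6]
      _ ≤ ∑ r, ‖q r‖ ^ 2 := h4
      _ = ∑ r, ‖U.mulVec q r‖ ^ 2 := h3.symm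
      _ ≤ _ := h2

theorem TG2_entry (a : ℕ → ℕ → ℂ) (n k : ℕ) (z : ℂ) (j j' : Fin (n - k)) (i i' : Fin k) :
    syl a n k z (j, i) (j', i') =
      pert a z (k + j) (k + j') * (1 : Matrix (Fin k) (Fin k) ℂ) i i' -
        (1 : Matrix (Fin (n - k)) (Fin (n - k)) ℂ) j j' * pert a z (0 + i) (0 + i') := rfl

theorem syl_roots (a : ℕ → ℕ → ℂ) (ha : HT a) (n k : ℕ) :
    ∃ τ : Fin (n - k) × Fin k → ℝ, ∃ c : ℝ, 0 < c ∧
      (∀ t y : ℝ, ‖(syl a n k ((t : ℂ) + y * Complex.I)).det‖ ^ 2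
        = c * ∏ r, ((t - τ r) ^ 2 + y ^ 2)) ∧
      (∀ t y : ℝ, 0 ≤ y → (∀ r, y ≤ |t - τ r|) → ∀ x : Fin (n - k) × Fin k → ℂ,
        y ^ 2 * ∑ r, ‖x r‖ ^ 2 ≤ ∑ r, ‖(syl a n k (t : ℂ)).mulVec x r‖ ^ 2) := by
  have hsyl : ∀ z : ℂ, syl a n k z = syl a n k 0 + Matrix.diagonal (fun r : Fin (n - k) × Fin k =>
      z * (((k : ℝ) + (r.1 : ℕ) - (r.2 : ℕ) : ℝ) : ℂ)) := by
    intro z
    ext ⟨j, i⟩ ⟨j', i'⟩
    rw [Matrix.add_apply, TG2_entry, TG2_entry]
    simp only [pert]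
    by_cases hj : j = j'
    · by_cases hi : i = i'
      · subst hj; subst hi
        simp
        ring
      · subst hj
        have hne : ((j, i) : Fin (n - k) × Fin k) ≠ (j, i') := by
          intro h; exact hi (Prod.mk.inj h).2
        have hi' : ¬ ((i : ℕ) = (i' : ℕ)) := fun h => hi (Fin.ext h)
        rw [Matrix.diagonal_apply_ne _ hne]
        simp [hi, hi']
    · have hne : ((j, i) : Fin (n - k) × Fin k) ≠ (j', i') := by
          intro h; exact hj (Prod.mk.inj h).1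
      have hj' : ¬ ((j : ℕ) = (j' : ℕ)) := fun h => hj (Fin.ext h)
      rw [Matrix.diagonal_apply_ne _ hne]
      simp [hj, hj']
  have hherm : (syl a n k 0).IsHermitian := by
    unfold Matrix.IsHermitian
    ext ⟨j, i⟩ ⟨j', i'⟩
    rw [Matrix.conjTranspose_apply, TG2_entry, TG2_entry]
    simp only [pert, zero_mul, ite_self, add_zero]
    have h1 : ∀ p q : ℕ, star (a p q) = a q p := by
      intro p q
      rw [ha.herm p q]; rfl
    rw [star_sub, star_mul', star_mul', h1, h1]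
    congr 1
    · congr 1
      by_cases hi : i = i'
      · subst hi; simp
      · have : i' ≠ i := fun h => hi h.symm
        simp [hi, this]
    · congr 1
      by_cases hj : j = j'
      · subst hj; simp
      · have : j' ≠ j := fun h => hj h.symm
        simp [hj, this]
  obtain ⟨τ, c, hc, h1, h2⟩ := TG2_gen (syl a n k 0) hherm
    (fun r : Fin (n - k) × Fin k => (k : ℝ) + (r.1 : ℕ) - (r.2 : ℕ)) (by
      intro r
      have h3 : ((r.2 : ℕ) : ℝ) + 1 ≤ k := by exact_mod_cast r.2.2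
      have h4 : (0 : ℝ) ≤ ((r.1 : ℕ) : ℝ) := Nat.cast_nonneg _
      linarith)
  refine ⟨τ, c, hc, ?_, ?_⟩
  · intro t y
    rw [hsyl]
    exact h1 t y
  · intro t y hy hty x
    rw [hsyl]
    exact h2 t y hy hty x

end Pool.Agent.TridiagGap
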