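import Pool.Agent.Helper693.Tri.Defs

set_option autoImplicit false
open scoped BigOperators Polynomial
open Polynomial

noncomputable section
namespace Pool.Agent.TridiagGap

/-- energy of the block -/
def enB (a : ℕ → ℕ → ℂ) (c : ℝ) (s k : ℕ) (V : ℕ → ℂ) : ℝ :=
  ∑ i ∈ Finset.range k, ‖(∑ j ∈ Finset.range k, a (s + i) (s + j) * V (s + j)) - (c : ℂ) * V (s + i)‖ ^ 2

/-- norm of the block -/
def nmB (s k : ℕ) (V : ℕ → ℂ) : ℝ := ∑ i ∈ Finset.range k, ‖V (s + i)‖ ^ 2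

theorem enB_nonneg (a : ℕ → ℕ → ℂ) (c : ℝ) (s k : ℕ) (V : ℕ → ℂ) : 0 ≤ enB a c s k V :=
  Finset.sum_nonneg fun _ _ => by positivity

theorem nmB_nonneg (s k : ℕ) (V : ℕ → ℂ) : 0 ≤ nmB s k V :=
  Finset.sum_nonneg fun _ _ => by positivity

/-- approximate eigenvector in the block -/
def appr (a : ℕ → ℕ → ℂ) (c r : ℝ) (s k : ℕ) : Prop :=
  ∃ V : ℕ → ℂ, (∃ i < k, V (s + i) ≠ 0) ∧ enB a c s k V ≤ r ^ 2 * nmB s k V

theorem appr_conv (a : ℕ → ℕ → ℂ) (c r : ℝ) (s k : ℕ) (h : appr a c r s k) :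
    ∃ u : Fin k → ℂ, u ≠ 0 ∧
      ∑ t, ‖(blk a s k).mulVec u t - (c : ℂ) * u t‖ ^ 2 ≤ r ^ 2 * ∑ t, ‖u t‖ ^ 2 := by
  obtain ⟨V, ⟨i, hi, hV⟩, hE⟩ := h
  refine ⟨fun t => V (s + t), ?_, ?_⟩
  · intro h0
    exact hV (congrFun h0 ⟨i, hi⟩)
  · have h1 : ∀ t : Fin k, (blk a s k).mulVec (fun t : Fin k => V (s + t)) t =
        ∑ j ∈ Finset.range k, a (s + t) (s + j) * V (s + j) := by
      intro t
      rw [← Fin.sum_univ_eq_sum_range (fun j => a (s + t) (s + j) * V (s + j)) k]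
      rfl
    simp only [h1]
    rw [Fin.sum_univ_eq_sum_range (fun t => ‖(∑ j ∈ Finset.range k, a (s + t) (s + j) * V (s + j)) -
      (c : ℂ) * V (s + t)‖ ^ 2) k, Fin.sum_univ_eq_sum_range (fun t => ‖V (s + t)‖ ^ 2) k]
    exact hE

/-- splitting of the energy at a zero of the vector -/
theorem split_energy (a : ℕ → ℕ → ℂ) (ha : HT a) (c : ℝ) (n p : ℕ) (hp : p < n) (V : ℕ → ℂ)
    (hV : V p = 0) : enB a c 0 p V + enB a c (p + 1) (n - (p + 1)) V ≤ enB a c 0 n V := by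
  obtain ⟨m, rfl⟩ : ∃ m, n = p + 1 + m := ⟨n - (p + 1), by omega⟩
  have hm : p + 1 + m - (p + 1) = m := by omega
  rw [hm]
  have hlow : ∀ i j, j + 1 < i → a i j = 0 := by
    intro i j hij
    rw [ha.herm j i, ha.tri j i hij, map_zero]
  unfold enB
  rw [Finset.sum_range_add _ (p + 1) m, Finset.sum_range_succ _ p]
  have h1 : ∀ i ∈ Finset.range p,
      ∑ j ∈ Finset.range (p + 1 + m), a (0 + i) (0 + j) * V (0 + j) =
      ∑ j ∈ Finset.range p, a (0 + i) (0 + j) * V (0 + j) := by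
    intro i hi
    rw [Finset.mem_range] at hi
    rw [Finset.sum_range_add _ (p + 1) m, Finset.sum_range_succ _ p]
    have h2 : ∑ x ∈ Finset.range m, a (0 + i) (0 + (p + 1 + x)) * V (0 + (p + 1 + x)) = 0 := by
      apply Finset.sum_eq_zero
      intro x _
      rw [ha.tri _ _ (by omega), zero_mul]
    rw [h2, zero_add p, hV, mul_zero, add_zero, add_zero]
  have h3 : ∀ i ∈ Finset.range m,
      ∑ j ∈ Finset.range (p + 1 + m), a (0 + (p + 1 + i)) (0 + j) * V (0 + j) =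
      ∑ j ∈ Finset.range m, a (p + 1 + i) (p + 1 + j) * V (p + 1 + j) := by
    intro i _
    rw [Finset.sum_range_add _ (p + 1) m, Finset.sum_range_succ _ p]
    have h2 : ∑ x ∈ Finset.range p, a (0 + (p + 1 + i)) (0 + x) * V (0 + x) = 0 := by
      apply Finset.sum_eq_zero
      intro x hx
      rw [Finset.mem_range] at hx
      rw [hlow _ _ (by omega), zero_mul]
    rw [h2, zero_add p, hV, mul_zero, add_zero, zero_add]
    simp only [zero_add]
  have e1 : ∑ i ∈ Finset.range p, ‖(∑ j ∈ Finset.range (p + 1 + m), a (0 + i) (0 + j) * V (0 + j)) -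
      (c : ℂ) * V (0 + i)‖ ^ 2 = ∑ i ∈ Finset.range p, ‖(∑ j ∈ Finset.range p, a (0 + i) (0 + j) * V (0 + j)) -
      (c : ℂ) * V (0 + i)‖ ^ 2 := by
    apply Finset.sum_congr rfl
    intro i hi
    rw [h1 i hi]
  have e2 : ∑ i ∈ Finset.range m, ‖(∑ j ∈ Finset.range (p + 1 + m), a (0 + (p + 1 + i)) (0 + j) * V (0 + j)) -
      (c : ℂ) * V (0 + (p + 1 + i))‖ ^ 2 = ∑ i ∈ Finset.range m, ‖(∑ j ∈ Finset.range m,
      a (p + 1 + i) (p + 1 + j) * V (p + 1 + j)) - (c : ℂ) * V (p + 1 + i)‖ ^ 2 := by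
    apply Finset.sum_congr rfl
    intro i hi
    rw [h3 i hi, zero_add (p + 1 + i)]
  rw [e1, e2]
  have h4 : 0 ≤ ‖(∑ j ∈ Finset.range (p + 1 + m), a (0 + p) (0 + j) * V (0 + j)) -
      (c : ℂ) * V (0 + p)‖ ^ 2 := by positivity
  linarith

theorem split_norm (n p : ℕ) (hp : p < n) (V : ℕ → ℂ)
    (hV : V p = 0) : nmB 0 n V = nmB 0 p V + nmB (p + 1) (n - (p + 1)) V := by
  obtain ⟨m, rfl⟩ : ∃ m, n = p + 1 + m := ⟨n - (p + 1), by omega⟩
  have hm : p + 1 + m - (p + 1) = m := by omega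
  rw [hm]
  unfold nmB
  rw [Finset.sum_range_add _ (p + 1) m, Finset.sum_range_succ _ p]
  simp only [zero_add, hV, norm_zero]
  ring

theorem nmB_zero {s k : ℕ} {V : ℕ → ℂ} (h : ∀ i < k, V (s + i) = 0) : nmB s k V = 0 := by
  unfold nmB
  apply Finset.sum_eq_zero
  intro i hi
  rw [h i (Finset.mem_range.mp hi), norm_zero]
  norm_num

/-- the dichotomy -/
theorem dicho (a : ℕ → ℕ → ℂ) (ha : HT a) (c r : ℝ) (n p : ℕ) (hp : p < n) (V : ℕ → ℂ)
    (hV : V p = 0) (hne : ∃ i < n, V i ≠ 0) (hE : enB a c 0 n V ≤ r ^ 2 * nmB 0 n V) :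
    appr a c r 0 p ∨ appr a c r (p + 1) (n - (p + 1)) := by
  have h1 := split_energy a ha c n p hp V hV
  have h2 := split_norm n p hp V hV
  have hEL := enB_nonneg a c 0 p V
  have hER := enB_nonneg a c (p + 1) (n - (p + 1)) V
  rw [h2, mul_add] at hE
  by_contra hcon
  rw [not_or] at hcon
  obtain ⟨hL, hR⟩ := hcon
  by_cases h3 : ∃ i < p, V (0 + i) ≠ 0
  · have h4 : r ^ 2 * nmB 0 p V < enB a c 0 p V := by
      by_contra h5
      exact hL ⟨V, h3, not_lt.mp h5⟩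
    have h5 : enB a c (p + 1) (n - (p + 1)) V < r ^ 2 * nmB (p + 1) (n - (p + 1)) V := by linarith
    apply hR
    refine ⟨V, ?_, h5.le⟩
    by_contra h6
    push Not at h6
    rw [nmB_zero h6, mul_zero] at h5
    linarith
  · push Not at h3
    have h4 := nmB_zero h3
    rw [h4, mul_zero, zero_add] at hE
    apply hR
    refine ⟨V, ?_, by linarith⟩
    obtain ⟨i, hi, hVi⟩ := hne
    have h5 : ¬ i < p := by
      intro h6
      have := h3 i h6
      rw [zero_add] at this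
      exact hVi this
    have h6 : i ≠ p := by
      rintro rfl
      exact hVi hV
    refine ⟨i - (p + 1), by omega, ?_⟩
    rw [show p + 1 + (i - (p + 1)) = i by omega]
    exact hVi

theorem cut_abs (a : ℕ → ℕ → ℂ) (c r : ℝ) (n : ℕ) (hn : 1 ≤ n)
    (h : ∀ p < n, appr a c r 0 p ∨ appr a c r (p + 1) (n - (p + 1))) :
    ∃ k, 1 ≤ k ∧ k < n ∧ appr a c r 0 k ∧ appr a c r k (n - k) := by
  classical
  have hz : ∀ s, ¬ appr a c r s 0 := by
    rintro s ⟨V, ⟨i, hi, _⟩, _⟩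
    omega
  have hex : ∃ k, appr a c r 0 k ∧ k < n := by
    refine ⟨n - 1, ?_, by omega⟩
    rcases h (n - 1) (by omega) with h1 | h1
    · exact h1
    · exfalso
      rw [show n - (n - 1 + 1) = 0 by omega] at h1
      exact hz _ h1
  obtain ⟨h1, h2⟩ := Nat.find_spec hex
  set k := Nat.find hex with hk
  have hk1 : 1 ≤ k := by
    by_contra h3
    have h4 : k = 0 := by omega
    rw [h4] at h1
    exact hz _ h1
  refine ⟨k, hk1, h2, h1, ?_⟩
  rcases h (k - 1) (by omega) with h3 | h3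
  · exact absurd ⟨h3, by omega⟩ (Nat.find_min hex (m := k - 1) (by omega))
  · rwa [show k - 1 + 1 = k by omega] at h3

/-- cut lemma: two close eigenvalues give a cut such that both blocks have an approximate
eigenvector -/
theorem cut_lemma (a : ℕ → ℕ → ℂ) (ha : HT a) (n : ℕ) (hA : (blk a 0 n).IsHermitian)
    (i j : Fin n) (hij : i ≠ j) (r : ℝ) (hr : |hA.eigenvalues i - hA.eigenvalues j| = 2 * r) :
    ∃ k, 1 ≤ k ∧ k < n ∧ ∃ c : ℝ, ∃ u : Fin k → ℂ, ∃ w : Fin (n - k) → ℂ, u ≠ 0 ∧ w ≠ 0 ∧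
      ∑ s, ‖(blk a 0 k).mulVec u s - (c : ℂ) * u s‖ ^ 2 ≤ r ^ 2 * ∑ s, ‖u s‖ ^ 2 ∧
      ∑ s, ‖(blk a k (n - k)).mulVec w s - (c : ℂ) * w s‖ ^ 2 ≤ r ^ 2 * ∑ s, ‖w s‖ ^ 2 := by
  classical
  set lam := hA.eigenvalues i with hlam
  set mu := hA.eigenvalues j with hmu
  set c : ℝ := (lam + mu) / 2 with hc
  set δ : ℝ := (lam - mu) / 2 with hδ
  have hδr : δ ^ 2 = r ^ 2 := by
    have h1 : |lam - mu| ^ 2 = (2 * r) ^ 2 := by rw [hr]
    rw [sq_abs] at h1
    rw [hδ]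
    linarith
  set v1 := hA.eigenvectorBasis i with hv1
  set v2 := hA.eigenvectorBasis j with hv2
  have hon := hA.eigenvectorBasis.orthonormal
  have hn1 : ‖v1‖ = 1 := hon.1 i
  have hn2 : ‖v2‖ = 1 := hon.1 j
  have horth : inner ℂ v1 v2 = 0 := hon.2 hij
  have hnorm : ∀ α β : ℂ, ‖α • v1 + β • v2‖ ^ 2 = ‖α‖ ^ 2 + ‖β‖ ^ 2 := by
    intro α β
    have h1 : inner ℂ (α • v1) (β • v2) = 0 := by
      rw [inner_smul_left, inner_smul_right, horth, mul_zero, mul_zero]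
    rw [@norm_add_sq ℂ, h1, norm_smul, norm_smul, hn1, hn2]
    simp
  have hA1 : ∀ s, (blk a 0 n).mulVec (fun t => v1 t) s = (lam : ℂ) * v1 s := by
    intro s
    have := congrFun (hA.mulVec_eigenvectorBasis i) s
    simpa using this
  have hA2 : ∀ s, (blk a 0 n).mulVec (fun t => v2 t) s = (mu : ℂ) * v2 s := by
    intro s
    have := congrFun (hA.mulVec_eigenvectorBasis j) s
    simpa using this
  have key : ∀ α β : ℂ, ∀ V : ℕ → ℂ, (∀ s : Fin n, V s = α * v1 s + β * v2 s) →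
      enB a c 0 n V ≤ r ^ 2 * nmB 0 n V := by
    intro α β V hV
    unfold enB nmB
    simp only [zero_add]
    rw [← Fin.sum_univ_eq_sum_range (fun i => ‖(∑ j ∈ Finset.range n, a i j * V j) - (c : ℂ) * V i‖ ^ 2) n,
      ← Fin.sum_univ_eq_sum_range (fun i => ‖V i‖ ^ 2) n]
    have h1 : ∀ s : Fin n, (∑ j ∈ Finset.range n, a s j * V j) - (c : ℂ) * V s =
        (δ : ℂ) * (α * v1 s + (-β) * v2 s) := by
      intro s
      rw [← Fin.sum_univ_eq_sum_range (fun j => a s j * V j) n]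
      have h2 : ∑ t : Fin n, a s t * V t = α * (blk a 0 n).mulVec (fun t => v1 t) s +
          β * (blk a 0 n).mulVec (fun t => v2 t) s := by
        unfold Matrix.mulVec dotProduct blk
        rw [Finset.mul_sum, Finset.mul_sum, ← Finset.sum_add_distrib]
        apply Finset.sum_congr rfl
        intro t _
        rw [hV t]
        simp only [Matrix.of_apply, zero_add]
        ring
      rw [h2, hA1, hA2, hV s, hc, hδ]
      push_cast
      ring
    have h3 : ∑ s : Fin n, ‖(∑ j ∈ Finset.range n, a s j * V j) - (c : ℂ) * V s‖ ^ 2 =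
        δ ^ 2 * ‖α • v1 + (-β) • v2‖ ^ 2 := by
      rw [EuclideanSpace.norm_sq_eq, Finset.mul_sum]
      apply Finset.sum_congr rfl
      intro s _
      rw [h1 s, norm_mul, mul_pow, Complex.norm_real, Real.norm_eq_abs, sq_abs]
      simp
    have h4 : ∑ s : Fin n, ‖V s‖ ^ 2 = ‖α • v1 + β • v2‖ ^ 2 := by
      rw [EuclideanSpace.norm_sq_eq]
      apply Finset.sum_congr rfl
      intro s _
      rw [hV s]
      simp
    rw [h3, h4, hnorm, hnorm, hδr, norm_neg]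
  have hn : 1 ≤ n := by
    have := i.2
    omega
  have hdich : ∀ p < n, appr a c r 0 p ∨ appr a c r (p + 1) (n - (p + 1)) := by
    intro p hp
    obtain ⟨α, β, hαβ, h0⟩ : ∃ α β : ℂ, ¬ (α = 0 ∧ β = 0) ∧ α * v1 ⟨p, hp⟩ + β * v2 ⟨p, hp⟩ = 0 := by
      by_cases h1 : v1 ⟨p, hp⟩ = 0 ∧ v2 ⟨p, hp⟩ = 0
      · refine ⟨1, 0, by simp, ?_⟩
        rw [h1.1, h1.2]
        ring
      · refine ⟨v2 ⟨p, hp⟩, - v1 ⟨p, hp⟩, ?_, by ring⟩
        rintro ⟨h2, h3⟩
        exact h1 ⟨neg_eq_zero.mp h3, h2⟩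
    set V : ℕ → ℂ := fun s => if h : s < n then α * v1 ⟨s, h⟩ + β * v2 ⟨s, h⟩ else 0 with hVdef
    have hV : ∀ s : Fin n, V s = α * v1 s + β * v2 s := by
      intro s
      simp only [hVdef, s.2, dif_pos]
    apply dicho a ha c r n p hp V
    · rw [← h0]
      exact hV ⟨p, hp⟩
    · by_contra h1
      push Not at h1
      have h2 : ‖α • v1 + β • v2‖ ^ 2 = 0 := by
        rw [EuclideanSpace.norm_sq_eq]
        apply Finset.sum_eq_zero
        intro s _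
        have h3 : (α • v1 + β • v2) s = V s := by
          rw [hV s]
          simp
        rw [h3, h1 s s.2]
        simp
      rw [hnorm] at h2
      apply hαβ
      have h3 : ‖α‖ ^ 2 = 0 := by nlinarith [sq_nonneg ‖α‖, sq_nonneg ‖β‖]
      have h4 : ‖β‖ ^ 2 = 0 := by nlinarith [sq_nonneg ‖α‖, sq_nonneg ‖β‖]
      rw [sq_eq_zero_iff, norm_eq_zero] at h3 h4
      exact ⟨h3, h4⟩
    · exact key α β V hV
  obtain ⟨k, hk1, hkn, hL, hR⟩ := cut_abs a c r n hn hdich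
  obtain ⟨u, hu, hu2⟩ := appr_conv a c r 0 k hL
  obtain ⟨w, hw, hw2⟩ := appr_conv a c r k (n - k) hR
  exact ⟨k, hk1, hkn, c, u, w, hu, hw, hu2, hw2⟩

end Pool.Agent.TridiagGap
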