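import Pool.Agent.Helper693.Tri.Defs

set_option autoImplicit false
open scoped BigOperators Polynomial
open Polynomial

noncomputable section
namespace Pool.Agent.TridiagGap

/-- the scalar inequality behind the descent (`s = ((t - τ)/y)^2`) -/
theorem poly_ineq (s : ℝ) (hs : 0 ≤ s) :
    (s + 1) ^ 8 * (16 * s ^ 2 + 24 * s + 25) ^ 5 ≤ (16 * s ^ 2 + 4) ^ 5 * (s + 4) ^ 8 := by
  have key : (16 * s ^ 2 + 4) ^ 5 * (s + 4) ^ 8 - (s + 1) ^ 8 * (16 * s ^ 2 + 24 * s + 25) ^ 5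
      = (57343239 + 9217728 * s) + s ^ 2 * (689930292 - 292700184 * s + 4495512810 * s ^ 2)
        + (3987655992 * s ^ 5 + 30010890660 * s ^ 6 + 50568619416 * s ^ 7 + 112514327175 * s ^ 8 + 160826970120 * s ^ 9 + 191798830896 * s ^ 10 + 189129672192 * s ^ 11 + 129931058688 * s ^ 12 + 58556166144 * s ^ 13 + 17135493120 * s ^ 14 + 3182297088 * s ^ 15 + 347013120 * s ^ 16 + 17301504 * s ^ 17) := by ring
  have q : 0 ≤ 689930292 - 292700184 * s + 4495512810 * s ^ 2 := by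
    nlinarith [sq_nonneg (s - 1), sq_nonneg s]
  have h2 := mul_nonneg (sq_nonneg s) q
  have h3 : 0 ≤ 3987655992 * s ^ 5 + 30010890660 * s ^ 6 + 50568619416 * s ^ 7 + 112514327175 * s ^ 8 + 160826970120 * s ^ 9 + 191798830896 * s ^ 10 + 189129672192 * s ^ 11 + 129931058688 * s ^ 12 + 58556166144 * s ^ 13 + 17135493120 * s ^ 14 + 3182297088 * s ^ 15 + 347013120 * s ^ 16 + 17301504 * s ^ 17 := by positivity
  have h1 : 0 ≤ 57343239 + 9217728 * s := by positivity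
  linarith

/-- `G t y = ∏ ((t - τ r)^2 + y^2)` -/
def G {ι : Type} [Fintype ι] (τ : ι → ℝ) (t y : ℝ) : ℝ := ∏ r, ((t - τ r) ^ 2 + y ^ 2)

theorem G_ratio {ι : Type} [Fintype ι] (τ : ι → ℝ) (t y : ℝ) :
    G τ t y / G τ t (2 * y)
      = ∏ r, (((t - τ r) ^ 2 + y ^ 2) / ((t - τ r) ^ 2 + (2 * y) ^ 2)) := by
  unfold G; rw [← Finset.prod_div_distrib]

theorem factor_ineq (a y : ℝ) (hy : 0 < y) :
    ((a ^ 2 + y ^ 2) / (a ^ 2 + (2 * y) ^ 2)) ^ 8 ≤
      (((a - y / 2) ^ 2 + (y / 2) ^ 2) / ((a - y / 2) ^ 2 + (2 * (y / 2)) ^ 2)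
        * (((a + y / 2) ^ 2 + (y / 2) ^ 2) / ((a + y / 2) ^ 2 + (2 * (y / 2)) ^ 2))) ^ 5 := by
  obtain ⟨x, rfl⟩ : ∃ x, a = x * y := ⟨a / y, by field_simp⟩
  have hy2 : (0:ℝ) < y ^ 2 := by positivity
  have h1 : ((x * y) ^ 2 + y ^ 2) / ((x * y) ^ 2 + (2 * y) ^ 2) = (x ^ 2 + 1) / (x ^ 2 + 4) := by
    rw [show (x * y) ^ 2 + y ^ 2 = y ^ 2 * (x ^ 2 + 1) by ring,
      show (x * y) ^ 2 + (2 * y) ^ 2 = y ^ 2 * (x ^ 2 + 4) by ring,
      mul_div_mul_left _ _ hy2.ne']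
  have h2 : ((x * y - y / 2) ^ 2 + (y / 2) ^ 2) / ((x * y - y / 2) ^ 2 + (2 * (y / 2)) ^ 2)
      = ((2 * x - 1) ^ 2 + 1) / ((2 * x - 1) ^ 2 + 4) := by
    rw [show (x * y - y / 2) ^ 2 + (y / 2) ^ 2 = (y ^ 2 / 4) * ((2 * x - 1) ^ 2 + 1) by ring,
      show (x * y - y / 2) ^ 2 + (2 * (y / 2)) ^ 2 = (y ^ 2 / 4) * ((2 * x - 1) ^ 2 + 4) by ring,
      mul_div_mul_left _ _ (by positivity)]
  have h3 : ((x * y + y / 2) ^ 2 + (y / 2) ^ 2) / ((x * y + y / 2) ^ 2 + (2 * (y / 2)) ^ 2)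
      = ((2 * x + 1) ^ 2 + 1) / ((2 * x + 1) ^ 2 + 4) := by
    rw [show (x * y + y / 2) ^ 2 + (y / 2) ^ 2 = (y ^ 2 / 4) * ((2 * x + 1) ^ 2 + 1) by ring,
      show (x * y + y / 2) ^ 2 + (2 * (y / 2)) ^ 2 = (y ^ 2 / 4) * ((2 * x + 1) ^ 2 + 4) by ring,
      mul_div_mul_left _ _ (by positivity)]
  rw [h1, h2, h3, div_mul_div_comm,
    show ((2 * x - 1) ^ 2 + 1) * ((2 * x + 1) ^ 2 + 1) = 16 * (x ^ 2) ^ 2 + 4 by ring,
    show ((2 * x - 1) ^ 2 + 4) * ((2 * x + 1) ^ 2 + 4) = 16 * (x ^ 2) ^ 2 + 24 * x ^ 2 + 25 by ring,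
    div_pow, div_pow, div_le_div_iff₀ (by positivity) (by positivity)]
  exact poly_ineq (x ^ 2) (sq_nonneg x)

/-- one of the two candidates keeps the ratio large -/
theorem descent_step {ι : Type} [Fintype ι] (τ : ι → ℝ) (t y : ℝ) (hy : 0 < y) :
    (G τ t y / G τ t (2 * y)) ^ 8 ≤
      (G τ (t - y / 2) (y / 2) / G τ (t - y / 2) (2 * (y / 2))
        * (G τ (t + y / 2) (y / 2) / G τ (t + y / 2) (2 * (y / 2)))) ^ 5 := by
  rw [G_ratio, G_ratio, G_ratio, ← Finset.prod_mul_distrib, ← Finset.prod_pow, ← Finset.prod_pow]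
  apply Finset.prod_le_prod
  · intro r _
    positivity
  · intro r _
    have h := factor_ineq (t - τ r) y hy
    rw [show t - y / 2 - τ r = t - τ r - y / 2 by ring,
      show t + y / 2 - τ r = t - τ r + y / 2 by ring]
    exact h

/-- the descent: if at every step the better candidate is chosen, then after `10 l` steps,
`2 ^ l ≥ n`, no `τ r` is within `y` of `t`. -/
theorem descent {ι : Type} [Fintype ι] (τ : ι → ℝ) (n l : ℕ) (hcard : 2 * Fintype.card ι ≤ n ^ 3)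
    (hl : n ≤ 2 ^ l) (t y : ℕ → ℝ) (hy0 : 0 < y 0) (hy : ∀ s, y (s + 1) = y s / 2)
    (ht : ∀ s, (t (s + 1) = t s - y (s + 1) ∧
        G τ (t s + y (s + 1)) (y (s + 1)) / G τ (t s + y (s + 1)) (2 * y (s + 1)) ≤
        G τ (t s - y (s + 1)) (y (s + 1)) / G τ (t s - y (s + 1)) (2 * y (s + 1))) ∨
      (t (s + 1) = t s + y (s + 1) ∧
        G τ (t s - y (s + 1)) (y (s + 1)) / G τ (t s - y (s + 1)) (2 * y (s + 1)) ≤
        G τ (t s + y (s + 1)) (y (s + 1)) / G τ (t s + y (s + 1)) (2 * y (s + 1)))) :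
    ∀ r, y (10 * l) ≤ |t (10 * l) - τ r| := by
  classical
  have hypos : ∀ s, 0 < y s := by
    intro s
    induction s with
    | zero => exact hy0
    | succ s ih => rw [hy]; positivity
  have hGpos : ∀ u v : ℝ, 0 < v → 0 < G τ u v := by
    intro u v hv
    unfold G
    exact Finset.prod_pos fun r _ => by positivity
  let ρ : ℕ → ℝ := fun s => G τ (t s) (y s) / G τ (t s) (2 * y s)
  have hρpos : ∀ s, 0 < ρ s := fun s =>
    div_pos (hGpos _ _ (hypos s)) (hGpos _ _ (by have := hypos s; positivity))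
  have hstep : ∀ s, ρ s ^ 4 ≤ ρ (s + 1) ^ 5 := by
    intro s
    have h8 := descent_step τ (t s) (y s) (hypos s)
    rw [← hy s] at h8
    set P := G τ (t s - y (s + 1)) (y (s + 1)) / G τ (t s - y (s + 1)) (2 * y (s + 1)) with hP
    set Q := G τ (t s + y (s + 1)) (y (s + 1)) / G τ (t s + y (s + 1)) (2 * y (s + 1)) with hQ
    have hy1 := hypos (s + 1)
    have hPpos : 0 < P := div_pos (hGpos _ _ hy1) (hGpos _ _ (by positivity))
    have hQpos : 0 < Q := div_pos (hGpos _ _ hy1) (hGpos _ _ (by positivity))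
    have hmax : P * Q ≤ ρ (s + 1) ^ 2 := by
      rcases ht s with ⟨h1, h2⟩ | ⟨h1, h2⟩
      · have : ρ (s + 1) = P := by simp only [ρ, hP, h1]
        rw [this]; nlinarith
      · have : ρ (s + 1) = Q := by simp only [ρ, hQ, h1]
        rw [this]; nlinarith
    have h10 : (ρ s ^ 4) ^ 2 ≤ (ρ (s + 1) ^ 5) ^ 2 := by
      calc (ρ s ^ 4) ^ 2 = ρ s ^ 8 := by ring
        _ ≤ (P * Q) ^ 5 := h8
        _ ≤ (ρ (s + 1) ^ 2) ^ 5 := pow_le_pow_left₀ (by positivity) hmax 5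
        _ = (ρ (s + 1) ^ 5) ^ 2 := by ring
    have hp := hρpos (s + 1)
    exact le_of_sq_le_sq h10 (by positivity)
  have h0 : ((1:ℝ) / 4) ^ (Fintype.card ι) ≤ ρ 0 := by
    show _ ≤ G τ (t 0) (y 0) / G τ (t 0) (2 * y 0)
    rw [G_ratio]
    calc ((1:ℝ) / 4) ^ (Fintype.card ι) = ∏ _r : ι, ((1:ℝ) / 4) := by
          rw [Finset.prod_const, Finset.card_univ]
      _ ≤ _ := by
          apply Finset.prod_le_prod
          · intro r _; norm_num
          · intro r _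
            have := hypos 0
            rw [div_le_div_iff₀ (by norm_num) (by positivity)]
            nlinarith [sq_nonneg (t 0 - τ r)]
  have hind : ∀ s, (((1:ℝ) / 4) ^ (Fintype.card ι)) ^ (4 ^ s) ≤ ρ s ^ (5 ^ s) := by
    intro s
    induction s with
    | zero => simpa using h0
    | succ s ih =>
      calc (((1:ℝ) / 4) ^ (Fintype.card ι)) ^ (4 ^ (s + 1))
          = ((((1:ℝ) / 4) ^ (Fintype.card ι)) ^ (4 ^ s)) ^ 4 := by
            rw [pow_succ 4 s, pow_mul]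
        _ ≤ (ρ s ^ (5 ^ s)) ^ 4 := pow_le_pow_left₀ (by positivity) ih 4
        _ = (ρ s ^ 4) ^ (5 ^ s) := by rw [← pow_mul, ← pow_mul, mul_comm]
        _ ≤ (ρ (s + 1) ^ 5) ^ (5 ^ s) :=
            pow_le_pow_left₀ (by have := hρpos s; positivity) (hstep s) _
        _ = ρ (s + 1) ^ (5 ^ (s + 1)) := by rw [← pow_mul]; congr 1; ring
  have hexp : 2 * Fintype.card ι * 4 ^ (10 * l) ≤ 5 ^ (10 * l) := by
    calc 2 * Fintype.card ι * 4 ^ (10 * l) ≤ n ^ 3 * 4 ^ (10 * l) :=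
          Nat.mul_le_mul_right _ hcard
      _ ≤ (2 ^ l) ^ 3 * 4 ^ (10 * l) := Nat.mul_le_mul_right _ (Nat.pow_le_pow_left hl 3)
      _ = (8 * 4 ^ 10) ^ l := by
          rw [mul_pow, ← pow_mul, ← pow_mul, mul_comm l 3, pow_mul 2 3 l]; norm_num
      _ ≤ (5 ^ 10) ^ l := Nat.pow_le_pow_left (by norm_num) l
      _ = 5 ^ (10 * l) := by rw [← pow_mul]
  have hhalf : (1:ℝ) / 2 ≤ ρ (10 * l) := by
    by_contra hlt
    push Not at hlt
    have h1 := hind (10 * l)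
    have h2 : (((1:ℝ) / 4) ^ (Fintype.card ι)) ^ (4 ^ (10 * l))
        = (1 / 2) ^ (2 * Fintype.card ι * 4 ^ (10 * l)) := by
      rw [show (1:ℝ) / 4 = (1 / 2) ^ 2 by norm_num, ← pow_mul, ← pow_mul, mul_assoc]
    have h3 : ((1:ℝ) / 2) ^ (5 ^ (10 * l)) ≤ (1 / 2) ^ (2 * Fintype.card ι * 4 ^ (10 * l)) :=
      pow_le_pow_of_le_one (by norm_num) (by norm_num) hexp
    have h4 : ρ (10 * l) ^ (5 ^ (10 * l)) < ((1:ℝ) / 2) ^ (5 ^ (10 * l)) :=
      pow_lt_pow_left₀ hlt (hρpos _).le (by positivity)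
    rw [h2] at h1
    linarith
  intro r
  by_contra hr
  push Not at hr
  have hyp := hypos (10 * l)
  have hr2 : (t (10 * l) - τ r) ^ 2 < y (10 * l) ^ 2 := by
    rw [← sq_abs (t (10 * l) - τ r)]
    exact pow_lt_pow_left₀ hr (abs_nonneg _) (by norm_num)
  have hfac : ∀ r', ((t (10 * l) - τ r') ^ 2 + y (10 * l) ^ 2) /
      ((t (10 * l) - τ r') ^ 2 + (2 * y (10 * l)) ^ 2) ≤ 1 := by
    intro r'
    rw [div_le_one (by positivity)]
    nlinarith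
  have hlt : ρ (10 * l) < 2 / 5 := by
    show G τ (t (10 * l)) (y (10 * l)) / G τ (t (10 * l)) (2 * y (10 * l)) < 2 / 5
    rw [G_ratio, ← Finset.mul_prod_erase Finset.univ _ (Finset.mem_univ r)]
    have h1 : ((t (10 * l) - τ r) ^ 2 + y (10 * l) ^ 2) /
      ((t (10 * l) - τ r) ^ 2 + (2 * y (10 * l)) ^ 2) < 2 / 5 := by
      rw [div_lt_div_iff₀ (by positivity) (by norm_num)]
      nlinarith
    have h2 : ∏ r' ∈ Finset.univ.erase r, (((t (10 * l) - τ r') ^ 2 + y (10 * l) ^ 2) /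
      ((t (10 * l) - τ r') ^ 2 + (2 * y (10 * l)) ^ 2)) ≤ 1 :=
      Finset.prod_le_one (fun r' _ => by positivity) (fun r' _ => hfac r')
    have h3 : 0 ≤ ((t (10 * l) - τ r) ^ 2 + y (10 * l) ^ 2) /
      ((t (10 * l) - τ r) ^ 2 + (2 * y (10 * l)) ^ 2) := by positivity
    calc _ ≤ ((t (10 * l) - τ r) ^ 2 + y (10 * l) ^ 2) /
      ((t (10 * l) - τ r) ^ 2 + (2 * y (10 * l)) ^ 2) * 1 := mul_le_mul_of_nonneg_left h2 h3
      _ < 2 / 5 := by rw [mul_one]; exact h1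
  linarith

end Pool.Agent.TridiagGap
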