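import Pool.Agent.Helper693.Tri.Algo
import Pool.Agent.Helper693.Tri.TG2
import Pool.Agent.Helper693.Tri.TG3
import Pool.Agent.Helper693.Tri.TG5

set_option autoImplicit false

noncomputable section
namespace Pool.Agent.TridiagGap

theorem natC_val (n : ℕ) : natC n = (n : ℂ) := by
  have h : ∀ m : ℕ, (fun x : ℂ => x + 1)^[m] 0 = (m : ℂ) := by
    intro m
    induction m with
    | zero => simp
    | succ m ih => rw [Function.iterate_succ_apply', ih]; push_cast; rfl
  exact h n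

/-- the number of rounds -/
theorem rounds_spec (n : ℕ) (hn : 1 ≤ n) :
    ∃ l : ℕ, rounds n = 10 * l ∧ n ≤ 2 ^ l ∧ 2 ^ l ≤ 2 * n := by
  have key : ∀ i : ℕ, ∃ j : ℕ, (clogBody (natC n))^[i] (1, 0) = (((2 ^ j : ℕ) : ℂ), 10 * j) ∧
      (j = i ∨ n ≤ 2 ^ j) ∧ 2 ^ j ≤ 2 * n := by
    intro i
    induction i with
    | zero => exact ⟨0, by simp, Or.inl rfl, by simp; omega⟩
    | succ i ih =>
      obtain ⟨j, h1, h2, h3⟩ := ih
      rw [Function.iterate_succ_apply', h1, natC_val]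
      by_cases h : n ≤ 2 ^ j
      · refine ⟨j, ?_, Or.inr h, h3⟩
        have : (0 : ℝ) ≤ ((((2 ^ j : ℕ) : ℂ)) - (n : ℂ)).re := by
          have h' : ((n : ℕ) : ℝ) ≤ ((2 ^ j : ℕ) : ℝ) := by exact_mod_cast h
          simp only [Complex.sub_re, Complex.natCast_re]
          linarith
        unfold clogBody
        rw [if_pos this]
      · have h2' : j = i := by
          rcases h2 with h2 | h2
          · exact h2
          · exact absurd h2 h
        refine ⟨j + 1, ?_, Or.inl (by omega), ?_⟩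
        · have : ¬ (0 : ℝ) ≤ ((((2 ^ j : ℕ) : ℂ)) - (n : ℂ)).re := by
            have h' : ((2 ^ j : ℕ) : ℝ) < ((n : ℕ) : ℝ) := by exact_mod_cast not_le.1 h
            simp only [Complex.sub_re, Complex.natCast_re]
            linarith
          unfold clogBody
          rw [if_neg this]
          simp only [Prod.mk.injEq]
          constructor
          · push_cast; ring
          · ring
        · rw [pow_succ]; omega
  obtain ⟨j, h1, h2, h3⟩ := key n
  refine ⟨j, ?_, ?_, h3⟩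
  · unfold rounds; rw [h1]
  · rcases h2 with h2 | h2
    · rw [h2]; exact Nat.lt_two_pow_self.le
    · exact h2

theorem out_spec (n : ℕ) (c : ℂ) :
    ((outBody c)^[n] (natC n, [])).2 = List.ofFn (fun j : Fin n => c * ((j : ℂ) + 1)) := by
  have key : ∀ i : ℕ, i ≤ n → (outBody c)^[i] (natC n, [])
      = (((n - i : ℕ) : ℂ), (List.range i).map fun j => c * (((n - i + j : ℕ) : ℂ) + 1)) := by
    intro i
    induction i with
    | zero => intro _; simp [natC_val]
    | succ i ih =>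
      intro hi
      rw [Function.iterate_succ_apply', ih (by omega)]
      unfold outBody
      simp only [Prod.mk.injEq]
      have e1 : n - i = (n - (i + 1)) + 1 := by omega
      constructor
      · rw [e1]; push_cast; ring
      · rw [List.range_succ_eq_map, List.map_cons, List.map_map]
        congr 1
        · rw [e1]; push_cast; ring_nf
        · apply List.map_congr_left
          intro j _
          simp only [Function.comp]
          have e2 : n - i + j = n - (i + 1) + (j + 1) := by omega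
          rw [e2]
  rw [key n le_rfl]
  apply List.ext_getElem
  · simp
  · intro i h1 h2
    simp

/-- index set of all crossing parameters -/
abbrev Cut (n : ℕ) := Σ k : Finset.Ico 1 n, (Fin (n - (k : ℕ)) × Fin (k : ℕ))

theorem card_cut (n : ℕ) : 2 * Fintype.card (Cut n) ≤ n ^ 3 := by
  rw [Fintype.card_sigma]
  have h1 : ∀ k : Finset.Ico 1 n,
      2 * Fintype.card (Fin (n - (k : ℕ)) × Fin (k : ℕ)) ≤ n * n := by
    rintro ⟨k, hk⟩
    rw [Finset.mem_Ico] at hk
    rw [Fintype.card_prod, Fintype.card_fin, Fintype.card_fin]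
    obtain ⟨m, rfl⟩ : ∃ m, n = k + m := ⟨n - k, by omega⟩
    simp only [Nat.add_sub_cancel_left]
    nlinarith [sq_nonneg ((k : ℤ) - m), Nat.zero_le k, Nat.zero_le m, Nat.zero_le (k*k), Nat.zero_le (m*m)]
  rw [Finset.mul_sum]
  calc ∑ k : Finset.Ico 1 n, 2 * Fintype.card (Fin (n - (k : ℕ)) × Fin (k : ℕ))
      ≤ ∑ _k : Finset.Ico 1 n, n * n := Finset.sum_le_sum fun k _ => h1 k
    _ = (n - 1) * (n * n) := by simp
    _ ≤ n * (n * n) := Nat.mul_le_mul_right _ (by omega)
    _ = n ^ 3 := by ring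

theorem exists_tau (a : ℕ → ℕ → ℂ) (ha : HT a) (n : ℕ) :
    ∃ τ : Cut n → ℝ, ∃ c : ℝ, 0 < c ∧
      (∀ t y : ℝ, (∏ k ∈ Finset.Ico 1 n, ‖(syl a n k ((t : ℂ) + y * Complex.I)).det‖ ^ 2)
        = c * G τ t y) ∧
      (∀ t y : ℝ, 0 ≤ y → (∀ r, y ≤ |t - τ r|) → ∀ k, 1 ≤ k → k < n →
        ∀ x : Fin (n - k) × Fin k → ℂ,
        y ^ 2 * ∑ r, ‖x r‖ ^ 2 ≤ ∑ r, ‖(syl a n k (t : ℂ)).mulVec x r‖ ^ 2) := by
  choose τ c hc h1 h2 using fun k : ℕ => syl_roots a ha n k
  refine ⟨fun r => τ r.1 r.2, ∏ k ∈ Finset.Ico 1 n, c k, Finset.prod_pos fun k _ => hc k,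
    ?_, ?_⟩
  · intro t y
    unfold G
    rw [Fintype.prod_sigma]
    rw [Finset.prod_congr rfl fun k _ => h1 k t y, Finset.prod_mul_distrib]
    congr 1
    rw [← Finset.prod_coe_sort]
  · intro t y hy hr k hk1 hk2 x
    exact h2 k t y hy (fun r => hr ⟨⟨k, Finset.mem_Ico.2 ⟨hk1, hk2⟩⟩, r⟩) x

theorem HT_pert (a : ℕ → ℕ → ℂ) (ha : HT a) (t : ℝ) : HT (pert a t) := by
  constructor
  · intro i j
    unfold pert
    by_cases h : i = j
    · subst h
      have := ha.herm i i
      simp only [if_true, map_add, map_mul, Complex.conj_ofReal, Complex.conj_natCast, map_one]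
      rw [← this]
    · rw [if_neg h, if_neg (Ne.symm h)]
      simp [ha.herm i j]
  · intro i j h
    unfold pert
    rw [if_neg (by omega), ha.tri i j h, add_zero]

theorem gap_core (a : ℕ → ℕ → ℂ) (ha : HT a) (n : ℕ) (t y : ℝ)
    (h : ∀ k, 1 ≤ k → k < n → ∀ x : Fin (n - k) × Fin k → ℂ,
        y ^ 2 * ∑ r, ‖x r‖ ^ 2 ≤ ∑ r, ‖(syl a n k (t : ℂ)).mulVec x r‖ ^ 2)
    (hA : (blk (pert a t) 0 n).IsHermitian) (i j : Fin n) (hij : i ≠ j) :
    y ≤ |hA.eigenvalues i - hA.eigenvalues j| := by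
  obtain ⟨k, hk1, hk2, c, u, w, hu, hw, h1, h2⟩ := cut_lemma (pert a t) (HT_pert a ha t) n hA i j
    hij (|hA.eigenvalues i - hA.eigenvalues j| / 2) (by ring)
  set r := |hA.eigenvalues i - hA.eigenvalues j| / 2 with hr
  have hr0 : 0 ≤ r := by positivity
  have hU : 0 < ∑ s, ‖u s‖ ^ 2 := by
    obtain ⟨s, hs⟩ := Function.ne_iff.1 hu
    refine lt_of_lt_of_le ?_ (Finset.single_le_sum (f := fun s => ‖u s‖ ^ 2)
      (fun s _ => by positivity) (Finset.mem_univ s))
    have : 0 < ‖u s‖ := norm_pos_iff.2 hs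
    positivity
  have hW : 0 < ∑ s, ‖w s‖ ^ 2 := by
    obtain ⟨s, hs⟩ := Function.ne_iff.1 hw
    refine lt_of_lt_of_le ?_ (Finset.single_le_sum (f := fun s => ‖w s‖ ^ 2)
      (fun s _ => by positivity) (Finset.mem_univ s))
    have : 0 < ‖w s‖ := norm_pos_iff.2 hs
    positivity
  have hx := h k hk1 hk2 (fun p => w p.1 * u p.2)
  have hmul : ∀ p : Fin (n - k) × Fin k,
      (syl a n k (t : ℂ)).mulVec (fun p => w p.1 * u p.2) p
        = ((blk (pert a t) k (n - k)).mulVec w p.1 - c * w p.1) * u p.2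
          - w p.1 * ((blk (pert a t) 0 k).mulVec u p.2 - c * u p.2) := by
    rintro ⟨p, q⟩
    unfold syl
    rw [Matrix.sub_mulVec, Pi.sub_apply]
    have e1 : (Matrix.kronecker (blk (pert a t) k (n - k)) (1 : Matrix (Fin k) (Fin k) ℂ)).mulVec
        (fun p => w p.1 * u p.2) (p, q) = (blk (pert a t) k (n - k)).mulVec w p * u q := by
      simp only [Matrix.mulVec, dotProduct, Matrix.kronecker, Matrix.kroneckerMap_apply]
      rw [Fintype.sum_prod_type, Finset.sum_mul]
      refine Finset.sum_congr rfl fun p' _ => ?_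
      rw [Finset.sum_eq_single q]
      · simp [mul_assoc]
      · intro q' _ hq'
        rw [Matrix.one_apply_ne (Ne.symm hq')]
        simp
      · intro h; exact absurd (Finset.mem_univ _) h
    have e2 : (Matrix.kronecker (1 : Matrix (Fin (n - k)) (Fin (n - k)) ℂ)
        (blk (pert a t) 0 k)).mulVec
        (fun p => w p.1 * u p.2) (p, q) = w p * (blk (pert a t) 0 k).mulVec u q := by
      simp only [Matrix.mulVec, dotProduct, Matrix.kronecker, Matrix.kroneckerMap_apply]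
      rw [Fintype.sum_prod_type, Finset.sum_eq_single p]
      · rw [Finset.mul_sum]
        refine Finset.sum_congr rfl fun q' _ => ?_
        rw [Matrix.one_apply_eq]
        ring
      · intro p' _ hp'
        simp [Matrix.one_apply_ne (Ne.symm hp')]
      · intro h; exact absurd (Finset.mem_univ _) h
    rw [e1, e2]
    ring
  have hle : ∑ p, ‖(syl a n k (t : ℂ)).mulVec (fun p => w p.1 * u p.2) p‖ ^ 2
      ≤ (2 * r) ^ 2 * ((∑ s, ‖w s‖ ^ 2) * ∑ s, ‖u s‖ ^ 2) := by
    calc ∑ p, ‖(syl a n k (t : ℂ)).mulVec (fun p => w p.1 * u p.2) p‖ ^ 2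
        ≤ ∑ p : Fin (n - k) × Fin k,
          (2 * (‖(blk (pert a t) k (n - k)).mulVec w p.1 - c * w p.1‖ ^ 2 * ‖u p.2‖ ^ 2)
          + 2 * (‖w p.1‖ ^ 2 * ‖(blk (pert a t) 0 k).mulVec u p.2 - c * u p.2‖ ^ 2)) := by
          refine Finset.sum_le_sum fun p _ => ?_
          rw [hmul p]
          have h3 := norm_sub_le (((blk (pert a t) k (n - k)).mulVec w p.1 - c * w p.1) * u p.2)
            (w p.1 * ((blk (pert a t) 0 k).mulVec u p.2 - c * u p.2))
          rw [norm_mul, norm_mul] at h3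
          have h4 := norm_nonneg (((blk (pert a t) k (n - k)).mulVec w p.1 - c * w p.1) * u p.2
            - w p.1 * ((blk (pert a t) 0 k).mulVec u p.2 - c * u p.2))
          nlinarith [sq_nonneg (‖(blk (pert a t) k (n - k)).mulVec w p.1 - c * w p.1‖ * ‖u p.2‖
            - ‖w p.1‖ * ‖(blk (pert a t) 0 k).mulVec u p.2 - c * u p.2‖)]
      _ = 2 * ((∑ s, ‖(blk (pert a t) k (n - k)).mulVec w s - c * w s‖ ^ 2)
            * ∑ s, ‖u s‖ ^ 2)
          + 2 * ((∑ s, ‖w s‖ ^ 2)
            * ∑ s, ‖(blk (pert a t) 0 k).mulVec u s - c * u s‖ ^ 2) := by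
          rw [Finset.sum_add_distrib, ← Finset.mul_sum, ← Finset.mul_sum,
            Fintype.sum_prod_type, Fintype.sum_prod_type, Finset.sum_mul_sum,
            Finset.sum_mul_sum]
      _ ≤ (2 * r) ^ 2 * ((∑ s, ‖w s‖ ^ 2) * ∑ s, ‖u s‖ ^ 2) := by
          nlinarith [mul_le_mul_of_nonneg_right h2 hU.le, mul_le_mul_of_nonneg_left h1 hW.le]
  have hprod : ∑ p : Fin (n - k) × Fin k, ‖w p.1 * u p.2‖ ^ 2
      = (∑ s, ‖w s‖ ^ 2) * ∑ s, ‖u s‖ ^ 2 := by
    rw [Fintype.sum_prod_type, Finset.sum_mul_sum]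
    refine Finset.sum_congr rfl fun p _ => Finset.sum_congr rfl fun q _ => ?_
    rw [norm_mul, mul_pow]
  rw [hprod] at hx
  have hfin : y ^ 2 ≤ (2 * r) ^ 2 := by
    have := hx.trans hle
    exact le_of_mul_le_mul_right this (mul_pos hW hU)
  have : y ≤ 2 * r := by
    exact abs_le_of_sq_le_sq' hfin (by positivity) |>.2
  linarith

theorem G_pos {ι : Type} [Fintype ι] (τ : ι → ℝ) (t y : ℝ) (hy : 0 < y) : 0 < G τ t y :=
  Finset.prod_pos fun r _ => by positivity

/-- one round on real numbers -/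
def rstep {ι : Type} [Fintype ι] (τ : ι → ℝ) (s : ℝ × ℝ) : ℝ × ℝ :=
  if G τ (s.1 + s.2 / 2) (s.2 / 2) / G τ (s.1 + s.2 / 2) (2 * (s.2 / 2))
      ≤ G τ (s.1 - s.2 / 2) (s.2 / 2) / G τ (s.1 - s.2 / 2) (2 * (s.2 / 2))
  then (s.1 - s.2 / 2, s.2 / 2) else (s.1 + s.2 / 2, s.2 / 2)

theorem search_spec (a : ℕ → ℕ → ℂ) (ha : HT a) (n : ℕ) (hn : 1 ≤ n) (δ : ℝ) (hδ : 0 < δ)
    (l : List Ent)
    (hl : ∀ t y : ℝ, 0 < y → fz n (natC n) l ((t : ℂ) + y * Complex.I)
      = ((∏ k ∈ Finset.Ico 1 n, ‖(syl a n k ((t : ℂ) + y * Complex.I)).det‖ ^ 2 : ℝ) : ℂ)) :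
    ∃ t y : ℝ, search n (δ : ℂ) l = ((t : ℂ), (y : ℂ)) ∧ 0 ≤ t ∧ t ≤ δ / n ∧
      δ / (2 ^ 11 * (n : ℝ) ^ 11) ≤ y ∧
      ∀ k, 1 ≤ k → k < n → ∀ x : Fin (n - k) × Fin k → ℂ,
        y ^ 2 * ∑ r, ‖x r‖ ^ 2 ≤ ∑ r, ‖(syl a n k (t : ℂ)).mulVec x r‖ ^ 2 := by
  obtain ⟨τ, c, hc, h1, h2⟩ := exists_tau a ha n
  obtain ⟨L, hL1, hL2, hL3⟩ := rounds_spec n hn
  have hn' : (0 : ℝ) < n := by exact_mod_cast hn
  set T : ℝ := δ / n with hT
  have hT0 : 0 < T := by positivity
  -- value of the comparison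
  have hcmp : ∀ t v : ℝ, 0 < v → cmp n (natC n) l (t : ℂ) (v : ℂ)
      = ((c ^ 2 * (G τ (t - v) v * G τ (t + v) (2 * v)
        - G τ (t + v) v * G τ (t - v) (2 * v)) : ℝ) : ℂ) := by
    intro t v hv
    have hf : ∀ s w : ℝ, 0 < w → fz n (natC n) l ((s : ℂ) + Complex.I * (w : ℂ))
        = ((c * G τ s w : ℝ) : ℂ) := by
      intro s w hw
      rw [mul_comm Complex.I, hl s w hw, h1 s w]
    unfold cmp
    have e1 : (t : ℂ) - (v : ℂ) = ((t - v : ℝ) : ℂ) := by push_cast; ring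
    have e2 : (t : ℂ) + (v : ℂ) = ((t + v : ℝ) : ℂ) := by push_cast; ring
    have e3 : (v : ℂ) + (v : ℂ) = ((2 * v : ℝ) : ℂ) := by push_cast; ring
    rw [e1, e2, e3, hf _ _ hv, hf _ _ (by positivity), hf _ _ hv, hf _ _ (by positivity)]
    push_cast
    ring
  have hround : ∀ t v : ℝ, 0 < v → roundBody n (natC n, l) ((t : ℂ), (v : ℂ))
      = (((rstep τ (t, v)).1 : ℂ), ((rstep τ (t, v)).2 : ℂ)) := by
    intro t v hv
    have e0 : (v : ℂ) / (1 + 1) = ((v / 2 : ℝ) : ℂ) := by push_cast; ring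
    unfold roundBody rstep
    simp only
    rw [e0, hcmp t (v / 2) (by positivity), Complex.ofReal_re]
    have hv2 : 0 < v / 2 := by positivity
    have g1 := G_pos τ (t + v / 2) (2 * (v / 2)) (by positivity)
    have g2 := G_pos τ (t - v / 2) (2 * (v / 2)) (by positivity)
    have hiff : (0 ≤ c ^ 2 * (G τ (t - v / 2) (v / 2) * G τ (t + v / 2) (2 * (v / 2))
        - G τ (t + v / 2) (v / 2) * G τ (t - v / 2) (2 * (v / 2)))) ↔
        (G τ (t + v / 2) (v / 2) / G τ (t + v / 2) (2 * (v / 2))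
        ≤ G τ (t - v / 2) (v / 2) / G τ (t - v / 2) (2 * (v / 2))) := by
      rw [div_le_div_iff₀ g1 g2]
      constructor
      · intro h
        have := nonneg_of_mul_nonneg_right h (by positivity : (0 : ℝ) < c ^ 2)
        linarith
      · intro h
        exact mul_nonneg (by positivity) (by linarith)
    by_cases h : 0 ≤ c ^ 2 * (G τ (t - v / 2) (v / 2) * G τ (t + v / 2) (2 * (v / 2))
        - G τ (t + v / 2) (v / 2) * G τ (t - v / 2) (2 * (v / 2)))
    · rw [if_pos h, if_pos (hiff.1 h)]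
      push_cast
      rfl
    · rw [if_neg h, if_neg (fun h' => h (hiff.2 h'))]
      push_cast
      rfl
  -- real sequences
  set t : ℕ → ℝ := fun s => ((rstep τ)^[s] (T / 2, T / 2)).1 with ht
  set y : ℕ → ℝ := fun s => ((rstep τ)^[s] (T / 2, T / 2)).2 with hy
  have hstep2 : ∀ s : ℝ × ℝ, (rstep τ s).2 = s.2 / 2 := by
    intro s
    unfold rstep
    split_ifs <;> rfl
  have hysucc : ∀ s, y (s + 1) = y s / 2 := by
    intro s
    simp only [hy, Function.iterate_succ_apply']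
    exact hstep2 _
  have hyval : ∀ s, y s = T / 2 / 2 ^ s := by
    intro s
    induction s with
    | zero => simp [hy]
    | succ s ih => rw [hysucc, ih, pow_succ]; ring
  have hypos : ∀ s, 0 < y s := by
    intro s
    rw [hyval]
    positivity
  have htsucc : ∀ s, (t (s + 1) = t s - y (s + 1) ∧
        G τ (t s + y (s + 1)) (y (s + 1)) / G τ (t s + y (s + 1)) (2 * y (s + 1)) ≤
        G τ (t s - y (s + 1)) (y (s + 1)) / G τ (t s - y (s + 1)) (2 * y (s + 1))) ∨
      (t (s + 1) = t s + y (s + 1) ∧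
        G τ (t s - y (s + 1)) (y (s + 1)) / G τ (t s - y (s + 1)) (2 * y (s + 1)) ≤
        G τ (t s + y (s + 1)) (y (s + 1)) / G τ (t s + y (s + 1)) (2 * y (s + 1))) := by
    intro s
    have e : t (s + 1) = (rstep τ (t s, y s)).1 := by
      simp only [ht, hy, Function.iterate_succ_apply']
    rw [e, hysucc s]
    unfold rstep
    simp only
    split_ifs with h
    · exact Or.inl ⟨rfl, h⟩
    · exact Or.inr ⟨rfl, (not_le.1 h).le⟩
  have htbd : ∀ s, |t s - T / 2| ≤ T / 2 - y s := by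
    intro s
    induction s with
    | zero => simp [ht, hy]
    | succ s ih =>
      have e := hysucc s
      rcases htsucc s with h | h
      · rw [h.1]
        rw [abs_le] at ih ⊢
        constructor <;> linarith [hypos s, ih.1, ih.2]
      · rw [h.1]
        rw [abs_le] at ih ⊢
        constructor <;> linarith [hypos s, ih.1, ih.2]
  have hiter : ∀ m : ℕ, (roundBody n (natC n, l))^[m]
      ((T / 2 : ℝ), (T / 2 : ℝ)) = ((t m : ℂ), (y m : ℂ)) := by
    intro m
    induction m with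
    | zero => simp [ht, hy]
    | succ m ih =>
      rw [Function.iterate_succ_apply', ih, hround _ _ (hypos m)]
      simp only [ht, hy, Function.iterate_succ_apply']
  refine ⟨t (10 * L), y (10 * L), ?_, ?_, ?_, ?_, ?_⟩
  · unfold search
    have e1 : (δ : ℂ) / natC n / (1 + 1) = ((T / 2 : ℝ) : ℂ) := by
      rw [natC_val, hT]
      push_cast
      ring
    rw [e1, hL1]
    exact hiter (10 * L)
  · have := (abs_le.1 (htbd (10 * L))).1
    linarith [hypos (10 * L)]
  · have := (abs_le.1 (htbd (10 * L))).2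
    linarith [hypos (10 * L)]
  · rw [hyval, hT]
    have hp : ((2 : ℝ) ^ L) ^ 10 ≤ (2 * n) ^ 10 := by
      apply pow_le_pow_left₀ (by positivity)
      exact_mod_cast hL3
    rw [mul_comm 10 L, pow_mul]
    rw [div_div, div_div]
    apply div_le_div_of_nonneg_left hδ.le (by positivity)
    calc (n : ℝ) * (2 * (2 ^ L) ^ 10) ≤ n * (2 * (2 * n) ^ 10) := by
          gcongr
      _ = 2 ^ 11 * (n : ℝ) ^ 11 := by ring
  · exact h2 _ _ (hypos _).le (descent τ n L (card_cut n) hL2 t y (hypos 0) hysucc htsucc)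

end Pool.Agent.TridiagGap
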