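import Pool.Agent.Helper693.Tri.Defs

set_option autoImplicit false
open scoped BigOperators Polynomial
open Polynomial

noncomputable section
namespace Pool.Agent.TridiagGap

theorem norm_det_syl (k m : ℕ) (L : Matrix (Fin k) (Fin k) ℂ) (R : Matrix (Fin m) (Fin m) ℂ) :
    ‖(Matrix.kronecker R (1 : Matrix (Fin k) (Fin k) ℂ)
      - Matrix.kronecker (1 : Matrix (Fin m) (Fin m) ℂ) L).det‖
      = ‖resultant L.charpoly R.charpoly k m‖ := by
  classical
  have hRdeg : R.charpoly.natDegree = m := by simp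
  have hLdeg : L.charpoly.natDegree = k := by simp
  have hRm : R.charpoly.Monic := Matrix.charpoly_monic R
  have hRs : R.charpoly.Splits := IsAlgClosed.splits _
  -- right-hand side
  have h1 : ‖resultant L.charpoly R.charpoly k m‖
      = ‖(R.charpoly.roots.map (fun ν => L.charpoly.eval ν)).prod‖ := by
    rw [resultant_comm]
    have := resultant_eq_prod_eval R.charpoly L.charpoly k (le_of_eq hLdeg) hRs
    rw [hRdeg, hRm.leadingCoeff, one_pow, one_mul] at this
    rw [this, norm_mul, norm_pow, norm_neg, norm_one, one_pow, one_mul]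
  -- left-hand side
  have h2 := Matrix.det_det R.charmatrix (aeval L : ℂ[X] →ₐ[ℂ] Matrix (Fin k) (Fin k) ℂ).toRingHom
  have h3 : (Matrix.comp (Fin m) (Fin m) (Fin k) (Fin k) ℂ
      (R.charmatrix.map (aeval L : ℂ[X] →ₐ[ℂ] Matrix (Fin k) (Fin k) ℂ).toRingHom))
      = -(Matrix.kronecker R (1 : Matrix (Fin k) (Fin k) ℂ)
      - Matrix.kronecker (1 : Matrix (Fin m) (Fin m) ℂ) L) := by
    ext ⟨i, a⟩ ⟨j, b⟩
    simp only [Matrix.comp_apply, Matrix.map_apply, Matrix.neg_apply, Matrix.sub_apply,
      Matrix.kronecker_apply]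
    by_cases hij : i = j
    · subst hij
      by_cases hab : a = b
      · subst hab
        simp [Matrix.algebraMap_matrix_apply]
      · simp [Matrix.algebraMap_matrix_apply, hab]
    · by_cases hab : a = b
      · subst hab
        simp [Matrix.charmatrix_apply_ne _ _ _ hij, Matrix.algebraMap_matrix_apply, hij]
      · simp [Matrix.charmatrix_apply_ne _ _ _ hij, Matrix.algebraMap_matrix_apply, hij, hab]
  let φ : ℂ[X] →* ℂ := (Matrix.detMonoidHom (n := Fin k) (R := ℂ)).comp
    ((aeval L : ℂ[X] →ₐ[ℂ] Matrix (Fin k) (Fin k) ℂ) : ℂ[X] →* Matrix (Fin k) (Fin k) ℂ)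
  have hφ : ∀ p : ℂ[X], φ p = (aeval L p).det := fun p => rfl
  have h4 : φ R.charpoly = (R.charpoly.roots.map (fun ν => φ (X - C ν))).prod := by
    conv_lhs => rw [hRs.eq_prod_roots_of_monic hRm]
    rw [map_multiset_prod, Multiset.map_map]
    rfl
  have h5 : ∀ ν : ℂ, ‖φ (X - C ν)‖ = ‖L.charpoly.eval ν‖ := by
    intro ν
    rw [hφ, Matrix.eval_charpoly]
    have : (aeval L) (X - C ν) = -(Matrix.scalar (Fin k) ν - L) := by
      rw [map_sub, aeval_X, aeval_C, neg_sub]
      rfl
    rw [this, Matrix.det_neg, norm_mul, norm_pow, norm_neg, norm_one, one_pow, one_mul]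
  have h6 : ‖φ R.charpoly‖ = ‖(R.charpoly.roots.map (fun ν => L.charpoly.eval ν)).prod‖ := by
    rw [h4]
    have key : ∀ s : Multiset ℂ, ‖(s.map (fun ν => φ (X - C ν))).prod‖
        = ‖(s.map (fun ν => L.charpoly.eval ν)).prod‖ := by
      intro s
      induction s using Multiset.induction_on with
      | empty => simp
      | cons a s ih =>
        rw [Multiset.map_cons, Multiset.prod_cons, norm_mul, Multiset.map_cons,
          Multiset.prod_cons, norm_mul, ih, h5]
    exact key _
  have h7 : φ R.charpoly = (-(Matrix.kronecker R (1 : Matrix (Fin k) (Fin k) ℂ)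
      - Matrix.kronecker (1 : Matrix (Fin m) (Fin m) ℂ) L)).det := by
    rw [← h3, ← h2]
    rfl
  rw [h1, ← h6, h7, Matrix.det_neg, norm_mul, norm_pow, norm_neg, norm_one, one_pow, one_mul]

end Pool.Agent.TridiagGap
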