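import Pool.Agent.Helper693.Tri.Defs

set_option autoImplicit false
open scoped BigOperators Polynomial
open Polynomial

noncomputable section
namespace Pool.Agent.TridiagGap

theorem det_tridiag_succ_succ {R : Type*} [CommRing R] (M : ℕ → ℕ → R)
    (h1 : ∀ i j, i + 1 < j → M i j = 0) (h2 : ∀ i j, j + 1 < i → M i j = 0) (k : ℕ) :
    Matrix.det (Matrix.of fun i j : Fin (k + 2) => M i j) =
      M (k + 1) (k + 1) * Matrix.det (Matrix.of fun i j : Fin (k + 1) => M i j) -
        M k (k + 1) * M (k + 1) k * Matrix.det (Matrix.of fun i j : Fin k => M i j) := by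
  rw [Matrix.det_succ_row _ (Fin.last (k + 1)), Fin.sum_univ_castSucc, Fin.sum_univ_castSucc]
  have hz : ∑ i : Fin k, (-1 : R) ^ (((Fin.last (k + 1) : Fin (k + 2)) : ℕ) +
      ((i.castSucc.castSucc : Fin (k + 2)) : ℕ)) *
      (Matrix.of fun i j : Fin (k + 2) => M i j) (Fin.last (k + 1)) i.castSucc.castSucc *
      ((Matrix.of fun i j : Fin (k + 2) => M i j).submatrix (Fin.last (k + 1)).succAbove
        i.castSucc.castSucc.succAbove).det = 0 := by
    apply Finset.sum_eq_zero
    intro i _
    have : (Matrix.of fun i j : Fin (k + 2) => M i j) (Fin.last (k + 1)) i.castSucc.castSucc = 0 := by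
      show M ((Fin.last (k + 1) : Fin (k + 2)) : ℕ) ((i.castSucc.castSucc : Fin (k + 2)) : ℕ) = 0
      apply h2
      simp only [Fin.val_castSucc, Fin.val_last]
      omega
    rw [this]
    ring
  rw [hz, zero_add]
  have ht1 : ((Matrix.of fun i j : Fin (k + 2) => M i j).submatrix (Fin.last (k + 1)).succAbove
        (Fin.last (k + 1)).succAbove) = (Matrix.of fun i j : Fin (k + 1) => M i j) := by
    ext i j
    simp [Fin.succAbove_last]
  have ht2 : ((Matrix.of fun i j : Fin (k + 2) => M i j).submatrix (Fin.last (k + 1)).succAbove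
        (Fin.last k).castSucc.succAbove).det =
        M k (k + 1) * (Matrix.of fun i j : Fin k => M i j).det := by
    rw [Matrix.det_succ_column _ (Fin.last k), Fin.sum_univ_castSucc]
    have hcol : ∀ i : Fin (k + 1), ((Matrix.of fun i j : Fin (k + 2) => M i j).submatrix
        (Fin.last (k + 1)).succAbove (Fin.last k).castSucc.succAbove) i (Fin.last k) =
        M i (k + 1) := by
      intro i
      rw [Matrix.submatrix_apply, Matrix.of_apply, Fin.succAbove_last,
        Fin.succAbove_of_le_castSucc _ _ le_rfl]
      simp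
    have hz : ∑ i : Fin k, (-1 : R) ^ (((i.castSucc : Fin (k + 1)) : ℕ) +
        ((Fin.last k : Fin (k + 1)) : ℕ)) *
        ((Matrix.of fun i j : Fin (k + 2) => M i j).submatrix
        (Fin.last (k + 1)).succAbove (Fin.last k).castSucc.succAbove) i.castSucc (Fin.last k) *
        (((Matrix.of fun i j : Fin (k + 2) => M i j).submatrix
        (Fin.last (k + 1)).succAbove (Fin.last k).castSucc.succAbove).submatrix
          i.castSucc.succAbove (Fin.last k).succAbove).det = 0 := by
      apply Finset.sum_eq_zero
      intro i _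
      rw [hcol, h1]
      · ring
      · simp only [Fin.val_castSucc]
        omega
    rw [hz, zero_add, hcol]
    have hsub : (((Matrix.of fun i j : Fin (k + 2) => M i j).submatrix
        (Fin.last (k + 1)).succAbove (Fin.last k).castSucc.succAbove).submatrix
          (Fin.last k).succAbove (Fin.last k).succAbove) = (Matrix.of fun i j : Fin k => M i j) := by
      ext i j
      simp only [Matrix.submatrix_apply, Matrix.of_apply, Fin.succAbove_last]
      rw [Fin.succAbove_of_castSucc_lt]
      · simp
      · rw [Fin.lt_def]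
        simp
    rw [hsub]
    have hs : (-1 : R) ^ (((Fin.last k : Fin (k + 1)) : ℕ) + ((Fin.last k : Fin (k + 1)) : ℕ)) = 1 := by
      rw [← two_mul, pow_mul]; norm_num
    rw [hs, one_mul]
    simp
  rw [ht1, ht2]
  have hs1 : (-1 : R) ^ (((Fin.last (k + 1) : Fin (k + 2)) : ℕ) +
      ((Fin.last (k + 1) : Fin (k + 2)) : ℕ)) = 1 := by
    rw [← two_mul, pow_mul]; norm_num
  have hs2 : (-1 : R) ^ (((Fin.last (k + 1) : Fin (k + 2)) : ℕ) +
      (((Fin.last k).castSucc : Fin (k + 2)) : ℕ)) = -1 := by
    simp only [Fin.val_last, Fin.val_castSucc]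
    rw [show k + 1 + k = 2 * k + 1 by ring, pow_succ, pow_mul]; norm_num
  rw [hs1, hs2]
  simp only [Matrix.of_apply, Fin.val_last, Fin.val_castSucc]
  ring

/-- three term recurrence for the characteristic polynomials of the blocks of a tridiagonal
array -/
theorem charpoly_blk_succ_succ (a : ℕ → ℕ → ℂ)
    (h1 : ∀ i j, i + 1 < j → a i j = 0) (h2 : ∀ i j, j + 1 < i → a i j = 0) (s k : ℕ) :
    (blk a s (k + 2)).charpoly
      = (X - C (a (s + k + 1) (s + k + 1))) * (blk a s (k + 1)).charpoly
        - C (a (s + k) (s + k + 1) * a (s + k + 1) (s + k)) * (blk a s k).charpoly := by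
  have key : ∀ n : ℕ, (blk a s n).charpoly = Matrix.det (Matrix.of fun i j : Fin n =>
      (fun i j : ℕ => (if i = j then (X : ℂ[X]) else 0) - C (a (s + i) (s + j))) i j) := by
    intro n
    unfold Matrix.charpoly
    congr 1
    ext i j : 2
    rw [Matrix.charmatrix_apply, Matrix.diagonal_apply, Matrix.of_apply]
    simp only [Fin.ext_iff, blk, Matrix.of_apply]
  rw [key, key, key]
  have hrec := det_tridiag_succ_succ
    (fun i j : ℕ => (if i = j then (X : ℂ[X]) else 0) - C (a (s + i) (s + j))) (by
      intro i j hij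
      have : ¬ (i = j) := by omega
      simp only [this, if_false, zero_sub, neg_eq_zero]
      rw [h1 _ _ (by omega), C_0]) (by
      intro i j hij
      have : ¬ (i = j) := by omega
      simp only [this, if_false, zero_sub, neg_eq_zero]
      rw [h2 _ _ (by omega), C_0]) k
  refine hrec.trans ?_
  have e1 : ¬ (k = k + 1) := by omega
  have e2 : ¬ (k + 1 = k) := by omega
  simp only [e1, e2, if_true, if_false, zero_sub, ← add_assoc, C_mul]
  ring

end Pool.Agent.TridiagGap
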