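import Pool.Agent.Helper693.Tri.Defs

set_option autoImplicit false
open scoped BigOperators Polynomial
open Polynomial

noncomputable section
namespace Pool.Agent.TridiagGap

theorem toPoly_axpy (c : ℂ) (v u : List ℂ) (h : v.length ≤ u.length) :
    toPoly (axpy c v u) = toPoly u + C c * toPoly v ∧ (axpy c v u).length = u.length := by
  induction v generalizing u with
  | nil => simp [axpy, toPoly]
  | cons b v ih =>
    cases u with
    | nil => simp at h
    | cons a u =>
      simp only [List.length_cons, add_le_add_iff_right] at h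
      obtain ⟨h1, h2⟩ := ih u h
      refine ⟨?_, ?_⟩
      · simp only [axpy, toPoly]
        rw [h1, C_add, C_mul]
        ring
      · simp only [axpy, List.length_cons]
        rw [h2]

theorem natDegree_toPoly (l : List ℂ) (m : ℕ) (h : l.length = m + 1) :
    (toPoly l).natDegree ≤ m := by
  induction l generalizing m with
  | nil => simp at h
  | cons a l ih =>
    simp only [List.length_cons, add_left_inj] at h
    subst h
    simp only [toPoly]
    cases l with
    | nil => simp [toPoly]
    | cons b l =>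
      have h1 := ih l.length (by simp)
      refine (natDegree_add_le _ _).trans ?_
      rw [natDegree_C]
      refine max_le (Nat.zero_le _) ?_
      refine natDegree_mul_le.trans ?_
      have h2 : (X : ℂ[X]).natDegree ≤ 1 := natDegree_X_le
      simp only [List.length_cons]
      omega

theorem coeff_zero_toPoly_cons (a : ℂ) (l : List ℂ) : (toPoly (a :: l)).coeff 0 = a := by
  simp [toPoly]

theorem res_X_mul_left (f g : ℂ[X]) (m n : ℕ) (hf : f.natDegree ≤ m) (hg : g.natDegree ≤ n) :
    resultant (X * f) g (m + 1) n = g.coeff 0 * resultant f g m n := by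
  obtain ⟨c, rfl⟩ := Nat.exists_eq_add_of_le hf
  have h1 : (X * f).natDegree ≤ (X : ℂ[X]).natDegree + f.natDegree := natDegree_mul_le
  have h2 : f.natDegree + c + 1 = (X : ℂ[X]).natDegree + f.natDegree + c := by
    rw [natDegree_X]; ring
  rw [h2, resultant_add_left_deg _ _ _ _ _ h1, resultant_add_left_deg f g _ _ _ le_rfl,
    resultant_mul_left _ _ _ _ hg]
  have h3 : resultant (X : ℂ[X]) g (X : ℂ[X]).natDegree n = g.coeff 0 := by
    have := resultant_X_pow_left g 1 n hg
    rw [natDegree_X]
    rwa [pow_one, pow_one] at this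
  rw [h3]
  ring

theorem norm_res_comm (f g : ℂ[X]) (m n : ℕ) : ‖resultant f g m n‖ = ‖resultant g f n m‖ := by
  rw [resultant_comm]
  simp

theorem redStep_inv (f g : List ℂ) (acc : ℂ) (m k : ℕ) (hf : f.length = m + 1)
    (hg : g.length = k + 1) (hkm : k ≤ m) (hm : 1 ≤ m)
    (hne : resultant (toPoly f) (toPoly g) m k ≠ 0) :
    ∃ m' k', (redStep (f, g, acc)).1.length = m' + 1 ∧ (redStep (f, g, acc)).2.1.length = k' + 1 ∧
      m' + k' + 1 = m + k ∧
      ‖(redStep (f, g, acc)).2.2‖ * ‖resultant (toPoly (redStep (f, g, acc)).1)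
        (toPoly (redStep (f, g, acc)).2.1) m' k'‖ =
        ‖acc‖ * ‖resultant (toPoly f) (toPoly g) m k‖ := by
  cases f with
  | nil => simp at hf
  | cons a fs =>
  cases g with
  | nil => simp at hg
  | cons b gs =>
  simp only [List.length_cons, add_left_inj] at hf hg
  by_cases hb : b = 0
  · subst hb
    have hred : redStep (a :: fs, 0 :: gs, acc) = (a :: fs, gs, acc * a) := by
      simp [redStep]
    rw [hred]
    cases k with
    | zero =>
      exfalso
      have h1 : gs = [] := List.length_eq_zero_iff.1 hg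
      subst h1
      apply hne
      have h2 : toPoly [(0 : ℂ)] = 0 := by simp [toPoly]
      rw [h2, resultant_zero_right]
      rw [zero_pow (by omega), zero_mul]
    | succ k =>
      refine ⟨m, k, by simp [hf], hg, by ring, ?_⟩
      simp only []
      have h1 : toPoly (0 :: gs) = X * toPoly gs := by simp [toPoly]
      have hd1 : (toPoly gs).natDegree ≤ k := natDegree_toPoly gs k hg
      have hd2 : (toPoly (a :: fs)).natDegree ≤ m := natDegree_toPoly _ m (by simp [hf])
      rw [h1, norm_res_comm _ (X * toPoly gs), res_X_mul_left _ _ _ _ hd1 hd2,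
        coeff_zero_toPoly_cons, norm_mul, norm_mul, norm_res_comm (toPoly gs)]
      ring
  · have hred : redStep (a :: fs, b :: gs, acc) = (axpy (-(a / b)) gs fs, b :: gs, acc * b) := by
      simp [redStep, hb]
    rw [hred]
    obtain ⟨m, rfl⟩ : ∃ m', m = m' + 1 := ⟨m - 1, by omega⟩
    obtain ⟨h1, h2⟩ := toPoly_axpy (-(a / b)) gs fs (by omega)
    refine ⟨m, k, by simp only []; rw [h2, hf], by simp [hg], by ring, ?_⟩
    simp only []
    have hd1 : (toPoly (axpy (-(a / b)) gs fs)).natDegree ≤ m :=
      natDegree_toPoly _ m (by rw [h2, hf])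
    have hd2 : (toPoly (b :: gs)).natDegree ≤ k := natDegree_toPoly _ k (by simp [hg])
    have h3 : toPoly (a :: fs) = X * toPoly (axpy (-(a / b)) gs fs) +
        toPoly (b :: gs) * C (a / b) := by
      rw [h1]
      simp only [toPoly]
      have h4 : (C a : ℂ[X]) = C b * C (a / b) := by
        rw [← C_mul, mul_div_cancel₀ _ hb]
      rw [h4, C_neg]
      ring
    rw [h3, resultant_add_mul_left _ _ _ _ _ (by rw [natDegree_C]; omega) hd2,
      res_X_mul_left _ _ _ _ hd1 hd2, coeff_zero_toPoly_cons, norm_mul, norm_mul]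
    ring

theorem euStep_inv (s : List ℂ × List ℂ × ℂ) (m k : ℕ) (hf : s.1.length = m + 1)
    (hg : s.2.1.length = k + 1) (hmk : 1 ≤ m + k)
    (hne : resultant (toPoly s.1) (toPoly s.2.1) m k ≠ 0) :
    ∃ m' k', (euStep s).1.length = m' + 1 ∧ (euStep s).2.1.length = k' + 1 ∧
      m' + k' + 1 = m + k ∧
      ‖(euStep s).2.2‖ * ‖resultant (toPoly (euStep s).1)
        (toPoly (euStep s).2.1) m' k'‖ =
        ‖s.2.2‖ * ‖resultant (toPoly s.1) (toPoly s.2.1) m k‖ := by
  obtain ⟨f, g, acc⟩ := s
  simp only [] at hf hg hne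
  unfold euStep
  simp only []
  by_cases h : g.length ≤ f.length
  · rw [if_pos h]
    exact redStep_inv f g acc m k hf hg (by omega) (by omega) hne
  · rw [if_neg h]
    obtain ⟨m', k', h1, h2, h3, h4⟩ := redStep_inv g f acc k m hg hf (by omega) (by omega) (by
      rw [← norm_ne_zero_iff, norm_res_comm, norm_ne_zero_iff]
      exact hne)
    refine ⟨m', k', h1, h2, by omega, ?_⟩
    rw [h4, norm_res_comm (toPoly g)]

theorem iter_inv (f g : List ℂ) (m k : ℕ) (hf : f.length = m + 1)
    (hg : g.length = k + 1) (hne : resultant (toPoly f) (toPoly g) m k ≠ 0) (j : ℕ)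
    (hj : j ≤ m + k) :
    ∃ m' k', (euStep^[j] (f, g, 1)).1.length = m' + 1 ∧
      (euStep^[j] (f, g, 1)).2.1.length = k' + 1 ∧
      m' + k' + j = m + k ∧
      ‖(euStep^[j] (f, g, 1)).2.2‖ * ‖resultant (toPoly (euStep^[j] (f, g, 1)).1)
        (toPoly (euStep^[j] (f, g, 1)).2.1) m' k'‖ =
        ‖resultant (toPoly f) (toPoly g) m k‖ := by
  induction j with
  | zero => exact ⟨m, k, hf, hg, rfl, by simp⟩
  | succ j ih =>
    obtain ⟨m₁, k₁, h1, h2, h3, h4⟩ := ih (by omega)
    rw [Function.iterate_succ_apply']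
    obtain ⟨m₂, k₂, g1, g2, g3, g4⟩ := euStep_inv (euStep^[j] (f, g, 1)) m₁ k₁ h1 h2 (by omega) (by
      intro h0
      rw [h0, norm_zero, mul_zero] at h4
      exact hne (norm_eq_zero.1 h4.symm))
    exact ⟨m₂, k₂, g1, g2, by omega, by rw [g4, h4]⟩

/-- The Euclidean algorithm computes the resultant (up to sign, if it is nonzero). -/
theorem euclid_resultant (f g : List ℂ) (m k : ℕ) (hf : f.length = m + 1)
    (hg : g.length = k + 1) (hne : resultant (toPoly f) (toPoly g) m k ≠ 0) :
    ‖(euStep^[m + k] (f, g, 1)).2.2‖ = ‖resultant (toPoly f) (toPoly g) m k‖ := by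
  obtain ⟨m₁, k₁, h1, h2, h3, h4⟩ := iter_inv f g m k hf hg hne (m + k) le_rfl
  obtain rfl : m₁ = 0 := by omega
  obtain rfl : k₁ = 0 := by omega
  rw [← h4]
  simp


end Pool.Agent.TridiagGap
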