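import Pool.Agent.Helper693.Tri.Cost
import Pool.Agent.Helper693.Tri.Search
import Pool.Agent.Helper872.TriEval

set_option autoImplicit false

noncomputable section
namespace Pool.Agent.TridiagGap

theorem le_gap {n : ℕ} (hn : 2 ≤ n) (M : Matrix (Fin n) (Fin n) ℂ) (hM : M.IsHermitian) (y : ℝ)
    (h : ∀ i j : Fin n, i ≠ j → y ≤ |hM.eigenvalues i - hM.eigenvalues j|) : y ≤ gap M := by
  have hroots := hM.roots_charpoly_eq_eigenvalues
  unfold gap
  apply le_csInf
  · refine ⟨_, (hM.eigenvalues ⟨0, by omega⟩ : ℂ), (hM.eigenvalues ⟨1, by omega⟩ : ℂ), ?_, rfl⟩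
    · rw [hroots]
      have h1 : ({(⟨0, by omega⟩ : Fin n), ⟨1, by omega⟩} : Multiset (Fin n))
          ≤ (Finset.univ : Finset (Fin n)).val := by
        rw [Multiset.le_iff_subset (by
          rw [Multiset.insert_eq_cons, Multiset.nodup_cons]
          simp)]
        intro x _
        exact Finset.mem_univ x
      exact Multiset.map_le_map h1 (f := RCLike.ofReal ∘ hM.eigenvalues)
  · rintro d ⟨a, b, hab, rfl⟩
    rw [hroots] at hab
    have ha : a ∈ Multiset.map (RCLike.ofReal ∘ hM.eigenvalues) (Finset.univ : Finset (Fin n)).val :=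
      Multiset.mem_of_le hab (by simp)
    obtain ⟨i, hi, rfl⟩ := Multiset.mem_map.1 ha
    have hs : (Finset.univ : Finset (Fin n)).val
        = i ::ₘ (Finset.univ : Finset (Fin n)).val.erase i := (Multiset.cons_erase hi).symm
    rw [hs, Multiset.map_cons, Multiset.insert_eq_cons, Multiset.cons_le_cons_iff,
      Multiset.singleton_le, Multiset.mem_map] at hab
    obtain ⟨j, hj, rfl⟩ := hab
    have hne : j ≠ i := by
      intro hji
      rw [hji] at hj
      exact (Multiset.Nodup.notMem_erase (Finset.univ : Finset (Fin n)).nodup) hj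
    have := h i j (Ne.symm hne)
    have e : (RCLike.ofReal ∘ hM.eigenvalues) i - (RCLike.ofReal ∘ hM.eigenvalues) j
        = ((hM.eigenvalues i - hM.eigenvalues j : ℝ) : ℂ) := by
      simp [Function.comp]
    rw [e, Complex.norm_real, Real.norm_eq_abs]
    exact this

theorem HT_entry {n : ℕ} (A : Matrix (Fin n) (Fin n) ℂ) (hA : A.IsHermitian)
    (hT : IsTridiagonal A) : HT (entry A) := by
  constructor
  · intro i j
    unfold entry
    by_cases h : i < n ∧ j < n
    · rw [dif_pos h, dif_pos ⟨h.2, h.1⟩]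
      exact (hA.apply _ _).symm
    · rw [dif_neg h, dif_neg (fun h' => h ⟨h'.2, h'.1⟩), map_zero]
  · intro i j h
    unfold entry
    by_cases h' : i < n ∧ j < n
    · rw [dif_pos h']
      exact hT _ _ (Or.inl h)
    · rw [dif_neg h']

theorem blk_entry {n : ℕ} (A : Matrix (Fin n) (Fin n) ℂ) (t δ : ℝ) (hδ : 0 < δ) :
    blk (pert (entry A) t) 0 n
      = A + (δ : ℂ) • Matrix.diagonal (fun j : Fin n => ((t / δ * ((j : ℝ) + 1) : ℝ) : ℂ)) := by
  ext i j
  have hδ' : (δ : ℂ) ≠ 0 := by exact_mod_cast hδ.ne'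
  simp only [blk, pert, Matrix.of_apply, zero_add, Matrix.add_apply, Matrix.smul_apply,
    smul_eq_mul, Matrix.diagonal_apply]
  have e1 : entry A i j = A i j := by
    unfold entry
    rw [dif_pos ⟨i.2, j.2⟩]
  rw [e1]
  congr 1
  by_cases h : i = j
  · subst h
    rw [if_pos rfl, if_pos rfl]
    push_cast
    field_simp
  · rw [if_neg (fun h' => h (Fin.ext h')), if_neg h, mul_zero]

theorem cost_real (K : ℕ) (n : ℕ) (hn : 2 ≤ n) :
    ((K * (rounds n + 1) * (n + 1) ^ 3 : ℕ) : ℝ) ≤ (248 * (K + 1)) * (n : ℝ) ^ 3 * Real.log n := by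
  obtain ⟨L, h1, h2, h3⟩ := rounds_spec n (by omega)
  have hn' : (2 : ℝ) ≤ n := by exact_mod_cast hn
  have hlog2 : 0.69 < Real.log 2 := lt_trans (by norm_num) Real.log_two_gt_d9
  have hlogn : Real.log 2 ≤ Real.log n := Real.log_le_log (by norm_num) hn'
  have hL : (L : ℝ) * Real.log 2 ≤ 2 * Real.log n := by
    have h4 : Real.log ((2 : ℝ) ^ L) ≤ Real.log (2 * n) := by
      apply Real.log_le_log (by positivity)
      exact_mod_cast h3
    rw [Real.log_pow, Real.log_mul (by norm_num) (by positivity)] at h4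
    linarith
  have hL2 : (L : ℝ) ≤ 3 * Real.log n := by nlinarith [Nat.cast_nonneg (α := ℝ) L]
  have hr : ((rounds n : ℕ) : ℝ) + 1 ≤ 31 * Real.log n + 1 * 0 + 1 - 1 + 0 := by
    rw [h1]
    push_cast
    nlinarith
  have hcube : ((n : ℝ) + 1) ^ 3 ≤ 8 * (n : ℝ) ^ 3 := by
    have : ((n : ℝ) + 1) ≤ 2 * n := by linarith
    calc ((n : ℝ) + 1) ^ 3 ≤ (2 * n) ^ 3 := by gcongr
      _ = 8 * (n : ℝ) ^ 3 := by ring
  push_cast
  have hr' : (rounds n : ℝ) + 1 ≤ 31 * Real.log n := by linarith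
  have hlog0 : 0 ≤ Real.log n := by linarith
  calc (K : ℝ) * ((rounds n : ℝ) + 1) * ((n : ℝ) + 1) ^ 3
      ≤ K * (31 * Real.log n) * (8 * (n : ℝ) ^ 3) := by gcongr
    _ ≤ (248 * (K + 1)) * (n : ℝ) ^ 3 * Real.log n := by
        have : 0 ≤ (n : ℝ) ^ 3 * Real.log n := by positivity
        nlinarith

theorem encode_eq {n : ℕ} (A : Matrix (Fin n) (Fin n) ℂ) : encode A = els (entry A) 0 n := by
  unfold encode els
  apply List.ext_getElem
  · simp
  · intro i h1 h2
    simp

theorem norm_diag {n : ℕ} (e : Fin n → ℝ) (h : ∀ j, |e j| ≤ 1) :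
    open scoped Matrix.Norms.L2Operator in
    ‖Matrix.diagonal (fun j => (e j : ℂ))‖ ≤ 1 := by
  open scoped Matrix.Norms.L2Operator in
  rw [Matrix.l2_opNorm_diagonal]
  rw [pi_norm_le_iff_of_nonneg (by norm_num)]
  intro j
  rw [Complex.norm_real]
  exact h j

end Pool.Agent.TridiagGap
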