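import Mathlib

set_option autoImplicit false

namespace Pool.Agent.TridiagGap

/-- Case distinction on a list (empty or not). -/
def caseList {β γ : Type} (l : List β) (g : γ) (h : β → List β → γ) : γ :=
  match l with
  | [] => g
  | b :: t => h b t

@[simp] theorem caseList_nil {β γ : Type} (g : γ) (h : β → List β → γ) :
    caseList [] g h = g := rfl

@[simp] theorem caseList_cons {β γ : Type} (b : β) (t : List β) (g : γ) (h : β → List β → γ) :
    caseList (b :: t) g h = h b t := rfl

/-- **The model of computation.**  `Computes f c` says that some (uniform, finite) program computes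
the function `f` and that on input `x` it performs at most `c x` operations.

The programs are the terms of a small first-order language with exact complex numbers, natural
numbers (used only as loop counters), pairs and lists as data.  Every operation costs one unit:

* projections and pairing;
* the natural numbers `0` and `k ↦ k + 1`;
* the complex constants `1` and `i`, the arithmetic operations `+`, `-`, `*`, `/` on exact complex
  numbers, the real part, and branching on the comparison `0 ≤ Re z`;
* the empty list, `cons`, and the case distinction (empty / head and tail) on a list;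
* loops `for i in 0..k-1 do s` (here `k` is a natural number computed before the loop starts); the
  cost is the sum of the costs of all executions of the body, plus one for each execution.

`Computes.le` only allows to overestimate the number of operations. -/
inductive Computes : {α β : Type} → (α → β) → (α → ℕ) → Prop
  | id {α : Type} : Computes (fun x : α => x) (fun _ => 0)
  | comp {α β γ : Type} {f : α → β} {g : β → γ} {c : α → ℕ} {d : β → ℕ} :
      Computes f c → Computes g d → Computes (fun x => g (f x)) (fun x => c x + d (f x))
  | pair {α β γ : Type} {f : α → β} {g : α → γ} {c d : α → ℕ} :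
      Computes f c → Computes g d → Computes (fun x => (f x, g x)) (fun x => c x + d x + 1)
  | fst {α β : Type} : Computes (fun p : α × β => p.1) (fun _ => 1)
  | snd {α β : Type} : Computes (fun p : α × β => p.2) (fun _ => 1)
  | zero {α : Type} : Computes (fun _ : α => (0 : ℕ)) (fun _ => 1)
  | succ : Computes (fun k : ℕ => k + 1) (fun _ => 1)
  | one {α : Type} : Computes (fun _ : α => (1 : ℂ)) (fun _ => 1)
  | imag {α : Type} : Computes (fun _ : α => Complex.I) (fun _ => 1)
  | add : Computes (fun p : ℂ × ℂ => p.1 + p.2) (fun _ => 1)
  | sub : Computes (fun p : ℂ × ℂ => p.1 - p.2) (fun _ => 1)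
  | mul : Computes (fun p : ℂ × ℂ => p.1 * p.2) (fun _ => 1)
  | div : Computes (fun p : ℂ × ℂ => p.1 / p.2) (fun _ => 1)
  | re : Computes (fun z : ℂ => (z.re : ℂ)) (fun _ => 1)
  | branch {α β : Type} {h : α → ℂ} {f g : α → β} {ch cf cg : α → ℕ} :
      Computes h ch → Computes f cf → Computes g cg →
      Computes (fun x => if 0 ≤ (h x).re then f x else g x)
        (fun x => ch x + 1 + if 0 ≤ (h x).re then cf x else cg x)
  | nil {α β : Type} : Computes (fun _ : α => ([] : List β)) (fun _ => 1)
  | cons {β : Type} : Computes (fun p : β × List β => p.1 :: p.2) (fun _ => 1)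
  | caseList {α β γ : Type} {g : α → γ} {h : α × β × List β → γ} {cg : α → ℕ}
      {ch : α × β × List β → ℕ} :
      Computes g cg → Computes h ch →
      Computes (fun p : α × List β => caseList p.2 (g p.1) (fun b t => h (p.1, b, t)))
        (fun p => 1 + caseList p.2 (cg p.1) (fun b t => ch (p.1, b, t)))
  | loop {α : Type} {s : α → α} {c : α → ℕ} :
      Computes s c →
      Computes (fun p : ℕ × α => s^[p.1] p.2)
        (fun p => ∑ i ∈ Finset.range p.1, (c (s^[i] p.2) + 1))
  | le {α β : Type} {f : α → β} {c d : α → ℕ} :
      Computes f c → (∀ x, c x ≤ d x) → Computes f d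

/-- `A` is tridiagonal. -/
def IsTridiagonal {n : ℕ} (A : Matrix (Fin n) (Fin n) ℂ) : Prop :=
  ∀ i j : Fin n, (i : ℕ) + 1 < j ∨ (j : ℕ) + 1 < i → A i j = 0

/-- The entry of `A` with natural number indices (starting from `0`); it is `0` outside. -/
def entry {n : ℕ} (A : Matrix (Fin n) (Fin n) ℂ) (i j : ℕ) : ℂ :=
  if h : i < n ∧ j < n then A ⟨i, h.1⟩ ⟨j, h.2⟩ else 0

/-- The input data of the algorithm: the list of the entries on the three central diagonals,
row by row (`j = 0, ..., n - 1`): `(A_{j,j}, A_{j,j+1}, A_{j+1,j})`. -/
def encode {n : ℕ} (A : Matrix (Fin n) (Fin n) ℂ) : List (ℂ × ℂ × ℂ) :=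
  List.ofFn fun j : Fin n => (entry A j j, entry A j (j + 1), entry A (j + 1) j)

/-- The gap of a square complex matrix: the minimum of `|a - b|` over all pairs of eigenvalues
`a, b` taken from the list (multiset) of the eigenvalues with multiplicity. -/
noncomputable def gap {n : ℕ} (M : Matrix (Fin n) (Fin n) ℂ) : ℝ :=
  sInf {d : ℝ | ∃ a b : ℂ, ({a, b} : Multiset ℂ) ≤ M.charpoly.roots ∧ d = ‖a - b‖}

end Pool.Agent.TridiagGap
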